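import Mathlib

/-!
MP_bbc525_pr (helper959): a Finner type inequality, one group of coordinates at a time.
-/

set_option autoImplicit false

namespace Pool.Agent.H959.UT

open MeasureTheory Finset Function
open scoped ENNReal

variable {ι κ Ω : Type*} [DecidableEq ι] [MeasurableSpace Ω] (ν : Measure Ω)
  [IsProbabilityMeasure ν]

/-- `f` does not depend on the coordinate `i`. -/
def Indep (f : (ι → Ω) → ℝ≥0∞) (i : ι) : Prop := ∀ x t, f (Function.update x i t) = f x

theorem holder_one [DecidableEq κ] (E : Finset κ) (f : κ → (ι → Ω) → ℝ≥0∞)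
    (hf : ∀ e ∈ E, Measurable (f e)) (i : ι) (k : ℕ) (hk : 0 < k) (D : Finset κ) (hD : D ⊆ E)
    (hcard : D.card ≤ k) (hind : ∀ e ∈ E, e ∉ D → Indep (f e) i) (x : ι → Ω) :
    ∫⁻ t, ∏ e ∈ E, f e (Function.update x i t) ∂ν ≤
      ∏ e ∈ E, (∫⁻ t, (f e (Function.update x i t)) ^ (k : ℝ) ∂ν) ^ (1 / (k : ℝ)) := by
  have hk' : (0 : ℝ) < k := by exact_mod_cast hk
  have hmeas : ∀ e ∈ E, Measurable (fun t => f e (Function.update x i t)) := fun e he =>
    (hf e he).comp (measurable_update x)
  have hsplit : ∀ t, ∏ e ∈ E, f e (Function.update x i t) =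
      (∏ e ∈ E \ D, f e x) * ∏ e ∈ D, f e (Function.update x i t) := by
    intro t
    rw [← Finset.prod_sdiff hD]
    congr 1
    apply Finset.prod_congr rfl
    intro e he
    rw [Finset.mem_sdiff] at he
    exact hind e he.1 he.2 x t
  simp only [hsplit]
  rw [lintegral_const_mul _ (Finset.measurable_prod _ (fun e he => hmeas e (hD he))),
    ← Finset.prod_sdiff hD]
  apply mul_le_mul' _ _
  · apply Finset.prod_le_prod' _
    intro e he
    rw [Finset.mem_sdiff] at he
    have h1 : ∀ t, f e (Function.update x i t) = f e x := fun t => hind e he.1 he.2 x t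
    simp only [h1, lintegral_const, measure_univ, mul_one]
    rw [← ENNReal.rpow_mul, mul_one_div_cancel hk'.ne', ENNReal.rpow_one]
  · have h2 := ENNReal.lintegral_mul_prod_norm_pow_le (μ := ν) D (g := fun _ => 1)
      (f := fun e t => (f e (Function.update x i t)) ^ (k : ℝ)) aemeasurable_const
      (fun e he => ((hmeas e (hD he)).pow_const _).aemeasurable) (1 - D.card / k)
      (p := fun _ => 1 / (k : ℝ)) (by
        rw [Finset.sum_const, nsmul_eq_mul]; ring) (by
        rw [sub_nonneg, div_le_one hk']; exact_mod_cast hcard) (fun _ _ => by positivity)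
    simp only [ENNReal.one_rpow, one_mul, lintegral_const, measure_univ, mul_one] at h2
    refine le_trans (le_of_eq ?_) h2
    apply lintegral_congr
    intro t
    apply Finset.prod_congr rfl
    intro e _
    rw [← ENNReal.rpow_mul, mul_one_div_cancel hk'.ne', ENNReal.rpow_one]

theorem indep_lmarginal {f : (ι → Ω) → ℝ≥0∞} (hf : Measurable f) {i : ι} {s : Finset ι}
    (h : Indep f i) : Indep (∫⋯∫⁻_s, f ∂(fun _ => ν)) i := by
  intro x t
  by_cases hi : i ∈ s
  · exact lmarginal_update_of_mem _ hi f x t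
  · rw [lmarginal_update_of_notMem hf hi]
    congr 1
    funext z
    exact h z t

omit [MeasurableSpace Ω] in
theorem indep_rpow {f : (ι → Ω) → ℝ≥0∞} {i : ι} (h : Indep f i) (r : ℝ) :
    Indep (fun x => f x ^ r) i := by
  intro x t
  show f (Function.update x i t) ^ r = f x ^ r
  rw [h x t]

theorem indep_lmarginal_self (f : (ι → Ω) → ℝ≥0∞) {i : ι} {s : Finset ι}
    (h : i ∈ s) : Indep (∫⋯∫⁻_s, f ∂(fun _ => ν)) i := fun x t =>
  lmarginal_update_of_mem _ h f x t

/-- One stage of the inequality: the coordinates in `s` are integrated, with exponent `k`. -/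
theorem stage [DecidableEq κ] (E : Finset κ) (f : κ → (ι → Ω) → ℝ≥0∞)
    (hf : ∀ e ∈ E, Measurable (f e)) (k : ℕ) (hk : 0 < k) (D : ι → Finset κ) (s : Finset ι)
    (hD : ∀ i ∈ s, D i ⊆ E) (hcard : ∀ i ∈ s, (D i).card ≤ k)
    (hind : ∀ i ∈ s, ∀ e ∈ E, e ∉ D i → Indep (f e) i) (x : ι → Ω) :
    (∫⋯∫⁻_s, (fun y => ∏ e ∈ E, f e y) ∂(fun _ => ν)) x ≤
      ∏ e ∈ E, ((∫⋯∫⁻_s, (fun y => f e y ^ (k : ℝ)) ∂(fun _ => ν)) x) ^ (1 / (k : ℝ)) := by
  have hk' : (0 : ℝ) < k := by exact_mod_cast hk
  induction s using Finset.induction_on generalizing x with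
  | empty =>
    simp only [lmarginal_empty]
    apply le_of_eq
    apply Finset.prod_congr rfl
    intro e _
    rw [← ENNReal.rpow_mul, mul_one_div_cancel hk'.ne', ENNReal.rpow_one]
  | insert i s hi ih =>
    have hprodm : Measurable (fun y => ∏ e ∈ E, f e y) := Finset.measurable_prod _ hf
    rw [lmarginal_insert _ hprodm hi]
    have ih' := fun y => ih (fun j hj => hD j (Finset.mem_insert_of_mem hj))
      (fun j hj => hcard j (Finset.mem_insert_of_mem hj))
      (fun j hj => hind j (Finset.mem_insert_of_mem hj)) y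
    refine (lintegral_mono (fun t => ih' (Function.update x i t))).trans ?_
    have hgm : ∀ e ∈ E, Measurable (fun y => ((∫⋯∫⁻_s, (fun z => f e z ^ (k : ℝ)) ∂(fun _ => ν)) y)
        ^ (1 / (k : ℝ))) := fun e he =>
      (((hf e he).pow_const _).lmarginal _).pow_const _
    have h1 := holder_one ν E (fun e y => ((∫⋯∫⁻_s, (fun z => f e z ^ (k : ℝ)) ∂(fun _ => ν)) y)
        ^ (1 / (k : ℝ))) hgm i k hk (D i) (hD i (Finset.mem_insert_self i s))
        (hcard i (Finset.mem_insert_self i s)) (fun e he hne =>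
          indep_rpow (indep_lmarginal ν ((hf e he).pow_const _)
            (indep_rpow (hind i (Finset.mem_insert_self i s) e he hne) _)) _) x
    refine h1.trans (le_of_eq ?_)
    apply Finset.prod_congr rfl
    intro e he
    rw [lmarginal_insert _ ((hf e he).pow_const _) hi]
    congr 1
    apply lintegral_congr
    intro t
    rw [← ENNReal.rpow_mul, one_div, inv_mul_cancel₀ hk'.ne', ENNReal.rpow_one]

/-- Integrating over coordinates on which the function does not depend changes nothing. -/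
theorem lmarginal_indep {f : (ι → Ω) → ℝ≥0∞} (hf : Measurable f) (s : Finset ι)
    (h : ∀ i ∈ s, Indep f i) : (∫⋯∫⁻_s, f ∂(fun _ => ν)) = f := by
  induction s using Finset.induction_on with
  | empty => simp
  | insert i s hi ih =>
    funext x
    rw [lmarginal_insert _ hf hi, ih (fun j hj => h j (Finset.mem_insert_of_mem hj))]
    simp only [h i (Finset.mem_insert_self i s) x, lintegral_const, measure_univ, mul_one]

/-- If `f` depends on only one coordinate `u ∈ s`, only that coordinate matters. -/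
theorem lmarginal_one {f : (ι → Ω) → ℝ≥0∞} (hf : Measurable f) {s : Finset ι} {u : ι}
    (hu : u ∈ s) (h : ∀ i ∈ s, i ≠ u → Indep f i) (x : ι → Ω) :
    (∫⋯∫⁻_s, f ∂(fun _ => ν)) x = ∫⁻ t, f (Function.update x u t) ∂ν := by
  rw [lmarginal_erase _ hf hu, lmarginal_indep ν hf]
  intro i hi
  rw [Finset.mem_erase] at hi
  exact h i hi.2 hi.1

/-- If `f` depends on only two coordinates `u, v ∈ s`. -/
theorem lmarginal_two {f : (ι → Ω) → ℝ≥0∞} (hf : Measurable f) {s : Finset ι} {u v : ι}
    (huv : u ≠ v) (hu : u ∈ s) (hv : v ∈ s) (h : ∀ i ∈ s, i ≠ u → i ≠ v → Indep f i) (x : ι → Ω) :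
    (∫⋯∫⁻_s, f ∂(fun _ => ν)) x =
      ∫⁻ t, ∫⁻ r, f (Function.update (Function.update x u t) v r) ∂ν ∂ν := by
  rw [lmarginal_erase _ hf hu]
  apply lintegral_congr
  intro t
  rw [lmarginal_one ν hf (Finset.mem_erase.mpr ⟨huv.symm, hv⟩)]
  intro i hi hne
  rw [Finset.mem_erase] at hi
  exact h i hi.2 hi.1 hne

end Pool.Agent.H959.UT
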