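import Mathlib
import Pool.Agent.H959.UT.Finner
import Pool.Graph.R_seed8.H767R5.UT.Fam

/-!
MP_bbc525_pr (helper959): the two stage bound for homomorphism densities.
-/

set_option autoImplicit false
set_option linter.unusedSectionVars false

namespace Pool.Agent.H959.UT

open MeasureTheory Finset Function
open scoped ENNReal
open Pool.Agent.H767R5.UT

variable {V : Type} [Fintype V] [DecidableEq V]

/-- The edge function with values in `ℝ≥0∞`. -/
noncomputable def ef (W : Graphon) (e : Sym2 V) (x : V → unitInterval) : ℝ≥0∞ :=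
  ENNReal.ofReal (W.edgeVal x e)

theorem edgeVal_measurable (W : Graphon) (e : Sym2 V) :
    Measurable (fun x : V → unitInterval => W.edgeVal x e) := by
  induction e with
  | h a b =>
    have h1 : Measurable (fun x : V → unitInterval => (x a, x b)) := by fun_prop
    exact W.measurable.comp h1

theorem ef_measurable (W : Graphon) (e : Sym2 V) :
    Measurable (ef (V := V) W e) := (edgeVal_measurable W e).ennreal_ofReal

theorem ef_indep (W : Graphon) (e : Sym2 V) (i : V) (h : i ∉ e) : Indep (ef (V := V) W e) i := by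
  induction e with
  | h a b =>
    rw [Sym2.mem_iff, not_or] at h
    intro x t
    show ENNReal.ofReal (W.toFun (Function.update x i t a) (Function.update x i t b)) = _
    rw [Function.update_of_ne (Ne.symm h.1), Function.update_of_ne (Ne.symm h.2)]
    rfl

/-- The edges as a finite set. -/
noncomputable def edges (H : SimpleGraph V) : Finset (Sym2 V) := (Set.toFinite H.edgeSet).toFinset

theorem mem_edges (H : SimpleGraph V) (e : Sym2 V) : e ∈ edges H ↔ e ∈ H.edgeSet :=
  Set.Finite.mem_toFinset _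

theorem ofReal_homDensity (H : SimpleGraph V) (W : Graphon) :
    ENNReal.ofReal (homDensity H W) =
      ∫⁻ x : V → unitInterval, ∏ e ∈ edges H, ef W e x ∂(Measure.pi (fun _ => volume)) := by
  unfold homDensity
  rw [ofReal_integral_eq_lintegral_ofReal]
  · rw [volume_pi]
    apply lintegral_congr
    intro x
    rw [ENNReal.ofReal_prod_of_nonneg (fun e _ => edgeVal_nonneg W x e)]
    rfl
  · refine bdd_int _ (Finset.measurable_prod _ (fun e _ => edgeVal_measurable W e)) 1 (fun x => ?_)
    rw [abs_of_nonneg (Finset.prod_nonneg (fun e _ => edgeVal_nonneg W x e))]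
    exact Finset.prod_le_one (fun e _ => edgeVal_nonneg W x e) (fun e _ => edgeVal_le_one W x e)
  · exact Filter.Eventually.of_forall
      (fun x => Finset.prod_nonneg (fun e _ => edgeVal_nonneg W x e))

/-- The degree, as the number of incident edges. -/
noncomputable def inc (H : SimpleGraph V) (i : V) : Finset (Sym2 V) := (edges H).filter (fun e => i ∈ e)

/-- The factor of the edge `e` in the two stage bound. -/
noncomputable def fac (W : Graphon) (L : Finset V) (k1 k2 : ℕ) (e : Sym2 V)
    (x : V → unitInterval) : ℝ≥0∞ :=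
  ((∫⋯∫⁻_Lᶜ, (fun y => (((∫⋯∫⁻_L, (fun z => ef W e z ^ (k1 : ℝ))
    ∂(fun _ => (volume : Measure unitInterval))) y) ^ (1 / (k1 : ℝ))) ^ (k2 : ℝ))
    ∂(fun _ => (volume : Measure unitInterval))) x) ^ (1 / (k2 : ℝ))

theorem two_stage (H : SimpleGraph V) (W : Graphon) (L : Finset V) (k1 k2 : ℕ) (h1 : 0 < k1)
    (h2 : 0 < k2) (hL : ∀ i ∈ L, (inc H i).card ≤ k1) (hL' : ∀ i, i ∉ L → (inc H i).card ≤ k2)
    (x : V → unitInterval) :
    ENNReal.ofReal (homDensity H W) ≤ ∏ e ∈ edges H, fac W L k1 k2 e x := by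
  rw [ofReal_homDensity, lintegral_eq_lmarginal_univ x]
  have hu : (Finset.univ : Finset V) = Lᶜ ∪ L := by
    rw [Finset.union_comm]; exact (Finset.union_compl L).symm
  have hm : Measurable (fun y : V → unitInterval => ∏ e ∈ edges H, ef W e y) :=
    Finset.measurable_prod _ (fun e _ => ef_measurable W e)
  rw [hu, lmarginal_union _ _ hm (Finset.disjoint_left.mpr (fun a ha hb =>
    (Finset.mem_compl.mp ha) hb))]
  have s1 : (∫⋯∫⁻_L, (fun y => ∏ e ∈ edges H, ef W e y) ∂(fun _ => (volume : Measure unitInterval))) ≤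
      fun y => ∏ e ∈ edges H, ((∫⋯∫⁻_L, (fun z => ef W e z ^ (k1 : ℝ))
        ∂(fun _ => (volume : Measure unitInterval))) y) ^ (1 / (k1 : ℝ)) := fun y =>
    stage volume (edges H) (fun e => ef W e) (fun e _ => ef_measurable W e) k1 h1
      (fun i => inc H i) L (fun i _ => Finset.filter_subset _ _) hL
      (fun i _ e he hne => ef_indep W e i (fun hi => hne (Finset.mem_filter.mpr ⟨he, hi⟩))) y
  refine (lmarginal_mono s1 x).trans ?_
  refine stage volume (edges H) (fun e y => ((∫⋯∫⁻_L, (fun z => ef W e z ^ (k1 : ℝ))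
        ∂(fun _ => (volume : Measure unitInterval))) y) ^ (1 / (k1 : ℝ))) (fun e _ => ?_) k2 h2
      (fun i => inc H i) Lᶜ (fun i _ => Finset.filter_subset _ _)
      (fun i hi => hL' i (Finset.mem_compl.mp hi)) (fun i _ e he hne => ?_) x
  · exact (((ef_measurable W e).pow_const _).lmarginal _).pow_const _
  · exact indep_rpow (indep_lmarginal volume ((ef_measurable W e).pow_const _)
      (indep_rpow (ef_indep W e i (fun hi => hne (Finset.mem_filter.mpr ⟨he, hi⟩))) _)) _

/-- Second moment like integral. -/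
noncomputable def N2 (W : Graphon) (k : ℕ) : ℝ≥0∞ :=
  ∫⁻ s : unitInterval, ∫⁻ t : unitInterval, ENNReal.ofReal (W.toFun s t) ^ (k : ℝ)

/-- Mixed moment. -/
noncomputable def N12 (W : Graphon) (k1 k2 : ℕ) : ℝ≥0∞ :=
  ∫⁻ s : unitInterval, ((∫⁻ t : unitInterval, ENNReal.ofReal (W.toFun s t) ^ (k1 : ℝ)) ^
    (1 / (k1 : ℝ))) ^ (k2 : ℝ)

theorem fac_in (W : Graphon) (L : Finset V) (k1 k2 : ℕ) (h2 : 0 < k2)
    (u v : V) (huv : u ≠ v) (hu : u ∈ L) (hv : v ∈ L) (x : V → unitInterval) :
    fac W L k1 k2 s(u, v) x = (N2 W k1) ^ (1 / (k1 : ℝ)) := by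
  have hk' : (0 : ℝ) < k2 := by exact_mod_cast h2
  have h : ∀ y, (∫⋯∫⁻_L, (fun z => ef W s(u, v) z ^ (k1 : ℝ))
      ∂(fun _ => (volume : Measure unitInterval))) y = N2 W k1 := by
    intro y
    rw [lmarginal_two volume ((ef_measurable W _).pow_const _) huv hu hv (fun i _ h1 h2 =>
      indep_rpow (ef_indep W _ i (by rw [Sym2.mem_iff]; tauto)) _)]
    unfold N2
    apply lintegral_congr; intro s
    apply lintegral_congr; intro t
    show ENNReal.ofReal (W.toFun (Function.update (Function.update y u s) v t u)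
      (Function.update (Function.update y u s) v t v)) ^ (k1 : ℝ) = _
    rw [Function.update_of_ne huv, Function.update_self, Function.update_self]
  unfold fac
  simp only [h]
  rw [lmarginal_indep volume measurable_const _ (fun i _ x t => rfl), ← ENNReal.rpow_mul,
    mul_one_div_cancel hk'.ne', ENNReal.rpow_one]

theorem fac_out (W : Graphon) (L : Finset V) (k1 k2 : ℕ) (h1 : 0 < k1)
    (u v : V) (huv : u ≠ v) (hu : u ∉ L) (hv : v ∉ L) (x : V → unitInterval) :
    fac W L k1 k2 s(u, v) x = (N2 W k2) ^ (1 / (k2 : ℝ)) := by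
  have hk' : (0 : ℝ) < k1 := by exact_mod_cast h1
  have h : ∀ y, (∫⋯∫⁻_L, (fun z => ef W s(u, v) z ^ (k1 : ℝ))
      ∂(fun _ => (volume : Measure unitInterval))) y = ef W s(u, v) y ^ (k1 : ℝ) := by
    intro y
    rw [lmarginal_indep volume ((ef_measurable W _).pow_const _) _ (fun i hi =>
      indep_rpow (ef_indep W _ i (by
        rw [Sym2.mem_iff]
        rintro (h | h)
        · exact hu (h ▸ hi)
        · exact hv (h ▸ hi))) _)]
  unfold fac
  simp only [h]
  congr 1
  have h' : ∀ y, ((ef W s(u, v) y ^ (k1 : ℝ)) ^ (1 / (k1 : ℝ))) ^ (k2 : ℝ) =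
      ef W s(u, v) y ^ (k2 : ℝ) := by
    intro y
    rw [← ENNReal.rpow_mul (ef W s(u, v) y), mul_one_div_cancel hk'.ne', ENNReal.rpow_one]
  simp only [h']
  rw [lmarginal_two volume ((ef_measurable W _).pow_const _) huv (Finset.mem_compl.mpr hu)
    (Finset.mem_compl.mpr hv) (fun i _ h1 h2 =>
      indep_rpow (ef_indep W _ i (by rw [Sym2.mem_iff]; tauto)) _)]
  unfold N2
  apply lintegral_congr; intro s
  apply lintegral_congr; intro t
  show ENNReal.ofReal (W.toFun (Function.update (Function.update x u s) v t u)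
    (Function.update (Function.update x u s) v t v)) ^ (k2 : ℝ) = _
  rw [Function.update_of_ne huv, Function.update_self, Function.update_self]

theorem fac_mix (W : Graphon) (L : Finset V) (k1 k2 : ℕ)
    (u v : V) (huv : u ≠ v) (hu : u ∉ L) (hv : v ∈ L) (x : V → unitInterval) :
    fac W L k1 k2 s(u, v) x = (N12 W k1 k2) ^ (1 / (k2 : ℝ)) := by
  have h : ∀ y, (∫⋯∫⁻_L, (fun z => ef W s(u, v) z ^ (k1 : ℝ))
      ∂(fun _ => (volume : Measure unitInterval))) y =
      ∫⁻ t : unitInterval, ENNReal.ofReal (W.toFun (y u) t) ^ (k1 : ℝ) := by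
    intro y
    rw [lmarginal_one volume ((ef_measurable W _).pow_const _) hv (fun i hi hne =>
      indep_rpow (ef_indep W _ i (by
        rw [Sym2.mem_iff]
        rintro (h | h)
        · exact hu (h ▸ hi)
        · exact hne h)) _)]
    apply lintegral_congr; intro t
    show ENNReal.ofReal (W.toFun (Function.update y v t u) (Function.update y v t v)) ^ (k1 : ℝ) = _
    rw [Function.update_of_ne huv, Function.update_self]
  unfold fac
  simp only [h]
  congr 1
  have hmt : Measurable (fun s : unitInterval =>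
      ((∫⁻ t : unitInterval, ENNReal.ofReal (W.toFun s t) ^ (k1 : ℝ)) ^
        (1 / (k1 : ℝ))) ^ (k2 : ℝ)) := by
    have h0 : Measurable (Function.uncurry (fun s t : unitInterval =>
        ENNReal.ofReal (W.toFun s t) ^ (k1 : ℝ))) :=
      (W.measurable.ennreal_ofReal).pow_const _
    exact ((h0.lintegral_prod_right').pow_const _).pow_const _
  have hm : Measurable (fun y : V → unitInterval =>
      ((∫⁻ t : unitInterval, ENNReal.ofReal (W.toFun (y u) t) ^ (k1 : ℝ)) ^
        (1 / (k1 : ℝ))) ^ (k2 : ℝ)) := hmt.comp (measurable_pi_apply u)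
  rw [lmarginal_one volume hm (Finset.mem_compl.mpr hu) (fun i _ hne y t => by
    show ((∫⁻ r : unitInterval, ENNReal.ofReal (W.toFun (Function.update y i t u) r) ^ (k1 : ℝ)) ^
        (1 / (k1 : ℝ))) ^ (k2 : ℝ) = _
    rw [Function.update_of_ne (Ne.symm hne)])]
  unfold N12
  apply lintegral_congr; intro s
  rw [Function.update_self]

end Pool.Agent.H959.UT
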