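import Mathlib
import Pool.Agent.H959.UT.Two

/-!
MP_bbc525_pr (helper959): counting edges by type; the bound for maximum degree two.
-/

set_option autoImplicit false
set_option linter.unusedSectionVars false

namespace Pool.Agent.H959.UT

open MeasureTheory Finset Function
open scoped ENNReal
open Pool.Agent.H767R5.UT

variable {V : Type} [Fintype V] [DecidableEq V]

/-- The number of endpoints of `e` in `L`. -/
def cnt (L : Finset V) (e : Sym2 V) : ℕ := (L.filter (fun v => v ∈ e)).card

theorem cnt_mk (L : Finset V) {u v : V} (huv : u ≠ v) :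
    cnt L s(u, v) = (if u ∈ L then 1 else 0) + (if v ∈ L then 1 else 0) := by
  unfold cnt
  have h : L.filter (fun w => w ∈ s(u, v)) =
      (if u ∈ L then {u} else ∅) ∪ (if v ∈ L then {v} else ∅) := by
    ext w
    rw [Finset.mem_filter, Sym2.mem_iff, Finset.mem_union]
    constructor
    · rintro ⟨h1, h2 | h2⟩
      · left; rw [h2] at h1; rw [if_pos h1, h2]; exact Finset.mem_singleton_self u
      · right; rw [h2] at h1; rw [if_pos h1, h2]; exact Finset.mem_singleton_self v
    · rintro (h1 | h1)
      · split_ifs at h1 with hu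
        · rw [Finset.mem_singleton] at h1; rw [h1]; exact ⟨hu, Or.inl rfl⟩
        · simp at h1
      · split_ifs at h1 with hv
        · rw [Finset.mem_singleton] at h1; rw [h1]; exact ⟨hv, Or.inr rfl⟩
        · simp at h1
  rw [h, Finset.card_union_of_disjoint]
  · split_ifs <;> simp
  · split_ifs <;> simp [huv]

/-- Number of edges with `j` endpoints in `L`. -/
noncomputable def ec (H : SimpleGraph V) (L : Finset V) (j : ℕ) : ℕ :=
  ((edges H).filter (fun e => cnt L e = j)).card

theorem edge_ne (H : SimpleGraph V) {u v : V} (h : s(u, v) ∈ edges H) : u ≠ v := by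
  rw [mem_edges, SimpleGraph.mem_edgeSet] at h
  exact h.ne

theorem cnt_le (H : SimpleGraph V) (L : Finset V) (e : Sym2 V) (he : e ∈ edges H) :
    cnt L e = 0 ∨ cnt L e = 1 ∨ cnt L e = 2 := by
  induction e with
  | h u v =>
    rw [cnt_mk L (edge_ne H he)]
    split_ifs <;> simp

theorem fac_eq (H : SimpleGraph V) (W : Graphon) (L : Finset V) (k1 k2 : ℕ) (h1 : 0 < k1)
    (h2 : 0 < k2) (e : Sym2 V) (he : e ∈ edges H) (x : V → unitInterval) :
    fac W L k1 k2 e x = (if cnt L e = 0 then (N2 W k2) ^ (1 / (k2 : ℝ)) else 1) *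
      (if cnt L e = 1 then (N12 W k1 k2) ^ (1 / (k2 : ℝ)) else 1) *
      (if cnt L e = 2 then (N2 W k1) ^ (1 / (k1 : ℝ)) else 1) := by
  induction e with
  | h u v =>
    have huv := edge_ne H he
    rw [cnt_mk L huv]
    by_cases hu : u ∈ L <;> by_cases hv : v ∈ L
    · rw [fac_in W L k1 k2 h2 u v huv hu hv]; simp [hu, hv]
    · rw [Sym2.eq_swap, fac_mix W L k1 k2 v u huv.symm hv hu]; simp [hu, hv]
    · rw [fac_mix W L k1 k2 u v huv hu hv]; simp [hu, hv]
    · rw [fac_out W L k1 k2 h1 u v huv hu hv]; simp [hu, hv]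

theorem prod_ite_one {ι : Type*} (s : Finset ι) (P : ι → Prop) [DecidablePred P] (c : ℝ≥0∞) :
    ∏ e ∈ s, (if P e then c else 1) = c ^ (s.filter P).card := by
  rw [Finset.prod_ite, Finset.prod_const, Finset.prod_const_one, mul_one]

theorem two_stage_count (H : SimpleGraph V) (W : Graphon) (L : Finset V) (k1 k2 : ℕ) (h1 : 0 < k1)
    (h2 : 0 < k2) (hL : ∀ i ∈ L, (inc H i).card ≤ k1) (hL' : ∀ i, i ∉ L → (inc H i).card ≤ k2) :
    ENNReal.ofReal (homDensity H W) ≤ ((N2 W k2) ^ (1 / (k2 : ℝ))) ^ (ec H L 0) *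
      ((N12 W k1 k2) ^ (1 / (k2 : ℝ))) ^ (ec H L 1) *
      ((N2 W k1) ^ (1 / (k1 : ℝ))) ^ (ec H L 2) := by
  have h := two_stage H W L k1 k2 h1 h2 hL hL' (fun _ => 0)
  rw [Finset.prod_congr rfl (fun e he => fac_eq H W L k1 k2 h1 h2 e he (fun _ => 0)),
    Finset.prod_mul_distrib, Finset.prod_mul_distrib, prod_ite_one, prod_ite_one,
    prod_ite_one] at h
  exact h

theorem sum_ite_card {ι : Type*} (s : Finset ι) (P : ι → Prop) [DecidablePred P] (c : ℕ) :
    ∑ e ∈ s, (if P e then c else 0) = c * (s.filter P).card := by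
  rw [Finset.sum_ite, Finset.sum_const, Finset.sum_const_zero, add_zero, smul_eq_mul, mul_comm]

theorem sum_inc (H : SimpleGraph V) (L : Finset V) :
    ∑ v ∈ L, (inc H v).card = ec H L 1 + 2 * ec H L 2 := by
  have h1 : ∀ v ∈ L, (inc H v).card = ∑ e ∈ edges H, (if v ∈ e then 1 else 0) := by
    intro v _
    rw [sum_ite_card, one_mul]
    rfl
  rw [Finset.sum_congr rfl h1, Finset.sum_comm]
  have h2 : ∀ e ∈ edges H, ∑ v ∈ L, (if v ∈ e then 1 else 0) =
      (if cnt L e = 1 then 1 else 0) + (if cnt L e = 2 then 2 else 0) := by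
    intro e he
    rw [sum_ite_card, one_mul]
    show cnt L e = _
    rcases cnt_le H L e he with h | h | h <;> simp [h]
  rw [Finset.sum_congr rfl h2, Finset.sum_add_distrib, sum_ite_card, sum_ite_card, one_mul]
  rfl

theorem card_edges (H : SimpleGraph V) (L : Finset V) :
    (edges H).card = ec H L 0 + ec H L 1 + ec H L 2 := by
  have h1 : (edges H).card = ∑ e ∈ edges H, ((if cnt L e = 0 then 1 else 0) +
      (if cnt L e = 1 then 1 else 0) + (if cnt L e = 2 then 1 else 0)) := by
    rw [Finset.card_eq_sum_ones]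
    apply Finset.sum_congr rfl
    intro e he
    rcases cnt_le H L e he with h | h | h <;> simp [h]
  rw [h1, Finset.sum_add_distrib, Finset.sum_add_distrib, sum_ite_card, sum_ite_card,
    sum_ite_card, one_mul, one_mul, one_mul]
  rfl

theorem sum_inc_univ (H : SimpleGraph V) : ∑ v, (inc H v).card = 2 * (edges H).card := by
  have h := sum_inc H Finset.univ
  have h2 := card_edges H Finset.univ
  have h3 : ∀ j, j ≠ 2 → ec H Finset.univ j = 0 := by
    intro j hj
    unfold ec
    rw [Finset.card_eq_zero, Finset.filter_eq_empty_iff]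
    intro e he
    induction e with
    | h u v =>
      rw [cnt_mk _ (edge_ne H he)]
      simp
      exact Ne.symm hj
  rw [h3 0 (by norm_num), h3 1 (by norm_num)] at h2
  rw [h, h3 1 (by norm_num)]
  omega

theorem edges_card (H : SimpleGraph V) : (edges H).card = H.edgeSet.ncard := by
  unfold edges
  rw [Set.ncard_eq_toFinset_card _ (Set.toFinite H.edgeSet)]

theorem inc_card (H : SimpleGraph V) (v : V) : (inc H v).card = (H.neighborSet v).ncard := by
  classical
  have h1 : inc H v = H.incidenceFinset v := by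
    ext e
    unfold inc
    rw [Finset.mem_filter, mem_edges, SimpleGraph.mem_incidenceFinset]
    exact Iff.rfl
  rw [h1, SimpleGraph.card_incidenceFinset_eq_degree, ← SimpleGraph.card_neighborSet_eq_degree,
    Set.ncard_eq_toFinset_card', Set.toFinset_card]

end Pool.Agent.H959.UT
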