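import Mathlib
import Pool.Agent.H959.UT.Cnt

/-!
MP_bbc525_pr (helper959): the bound `t(H,W)^2 ≤ (∫∫W²)^{c0} (∫d²)^{c1} (∫d)^{2 c2}`.
-/

set_option autoImplicit false
set_option linter.unusedSectionVars false

namespace Pool.Agent.H959.UT

open MeasureTheory Finset Function
open scoped ENNReal
open Pool.Agent.H767R5.UT

/-- The second moment `∫∫ W²`. -/
noncomputable def M2 (W : Graphon) : ℝ := ∫ s : unitInterval, ∫ t : unitInterval, W.toFun s t ^ 2

theorem lint_two (g : unitInterval → unitInterval → ℝ) (hm : Measurable (Function.uncurry g))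
    (h0 : ∀ s t, 0 ≤ g s t) (h1 : ∀ s t, g s t ≤ 1) :
    ∫⁻ s : unitInterval, ∫⁻ t : unitInterval, ENNReal.ofReal (g s t) =
      ENNReal.ofReal (∫ s : unitInterval, ∫ t : unitInterval, g s t) := by
  have hi : ∀ s, Integrable (fun t => g s t) (volume : Measure unitInterval) := fun s =>
    bdd_int _ (hm.comp measurable_prodMk_left) 1 (fun t => by
      rw [abs_of_nonneg (h0 s t)]; exact h1 s t)
  have hmm : Measurable (fun s => ∫ t : unitInterval, g s t) :=
    (hm.stronglyMeasurable.integral_prod_right).measurable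
  have hb : ∀ s, ∫ t : unitInterval, g s t ≤ 1 := fun s => by
    have := integral_mono (μ := (volume : Measure unitInterval)) (hi s) (integrable_const (1 : ℝ))
      (fun t => h1 s t)
    simpa using this
  have hii : Integrable (fun s => ∫ t : unitInterval, g s t) (volume : Measure unitInterval) :=
    bdd_int _ hmm 1 (fun s => by
      rw [abs_of_nonneg (integral_nonneg (h0 s))]; exact hb s)
  rw [ofReal_integral_eq_lintegral_ofReal hii
    (Filter.Eventually.of_forall (fun s => integral_nonneg (h0 s)))]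
  apply lintegral_congr
  intro s
  rw [ofReal_integral_eq_lintegral_ofReal (hi s) (Filter.Eventually.of_forall (h0 s))]

theorem N2_one (W : Graphon) : N2 W 1 = ENNReal.ofReal (∫ x, W.deg x) := by
  unfold N2
  have h : ∀ s t, ENNReal.ofReal (W.toFun s t) ^ ((1 : ℕ) : ℝ) = ENNReal.ofReal (W.toFun s t) := by
    intro s t; rw [Nat.cast_one, ENNReal.rpow_one]
  simp only [h]
  rw [lint_two _ W.measurable W.nonneg W.le_one]
  rfl

theorem N2_two (W : Graphon) : N2 W 2 = ENNReal.ofReal (M2 W) := by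
  unfold N2
  have h : ∀ s t, ENNReal.ofReal (W.toFun s t) ^ ((2 : ℕ) : ℝ) =
      ENNReal.ofReal (W.toFun s t ^ 2) := by
    intro s t
    rw [ENNReal.rpow_natCast, ENNReal.ofReal_pow (W.nonneg s t)]
  simp only [h]
  rw [lint_two _ (W.measurable.pow_const 2) (fun s t => by positivity)
    (fun s t => pow_le_one₀ (W.nonneg s t) (W.le_one s t))]
  rfl

theorem deg_nonneg (W : Graphon) (x : unitInterval) : 0 ≤ W.deg x := integral_nonneg (W.nonneg x)

theorem deg_le_one (W : Graphon) (x : unitInterval) : W.deg x ≤ 1 := by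
  have := integral_mono (μ := (volume : Measure unitInterval)) (W.intRow x)
    (integrable_const (1 : ℝ)) (fun t => W.le_one x t)
  simpa [Graphon.deg] using this

theorem deg_measurable (W : Graphon) : Measurable W.deg :=
  (W.measurable.stronglyMeasurable.integral_prod_right).measurable

theorem N12_eq (W : Graphon) : N12 W 1 2 = ENNReal.ofReal (∫ x, W.deg x ^ 2) := by
  unfold N12
  have h : ∀ s, ((∫⁻ t : unitInterval, ENNReal.ofReal (W.toFun s t) ^ ((1 : ℕ) : ℝ)) ^
      (1 / ((1 : ℕ) : ℝ))) ^ ((2 : ℕ) : ℝ) = ENNReal.ofReal (W.deg s ^ 2) := by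
    intro s
    have h1 : ∀ t, ENNReal.ofReal (W.toFun s t) ^ ((1 : ℕ) : ℝ) = ENNReal.ofReal (W.toFun s t) := by
      intro t; rw [Nat.cast_one, ENNReal.rpow_one]
    simp only [h1]
    rw [← ofReal_integral_eq_lintegral_ofReal (W.intRow s)
      (Filter.Eventually.of_forall (W.nonneg s)), Nat.cast_one, div_one, ENNReal.rpow_one,
      ENNReal.rpow_natCast, ← ENNReal.ofReal_pow (integral_nonneg (W.nonneg s))]
    rfl
  simp only [h]
  rw [ofReal_integral_eq_lintegral_ofReal]
  · exact bdd_int _ ((deg_measurable W).pow_const 2) 1 (fun s => by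
      rw [abs_of_nonneg (sq_nonneg _)]
      exact pow_le_one₀ (deg_nonneg W s) (deg_le_one W s))
  · exact Filter.Eventually.of_forall (fun s => sq_nonneg _)

variable {V : Type} [Fintype V] [DecidableEq V]

theorem homDensity_nonneg (H : SimpleGraph V) (W : Graphon) : 0 ≤ homDensity H W :=
  integral_nonneg (fun x => Finset.prod_nonneg (fun e _ => edgeVal_nonneg W x e))

/-- The bound for graphs of maximum degree two. -/
theorem bound_two (H : SimpleGraph V) (W : Graphon) (L : Finset V)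
    (hL : ∀ i ∈ L, (inc H i).card ≤ 1) (hL' : ∀ i, i ∉ L → (inc H i).card ≤ 2) :
    homDensity H W ^ 2 ≤ M2 W ^ (ec H L 0) * (∫ x, W.deg x ^ 2) ^ (ec H L 1) *
      (∫ x, W.deg x) ^ (2 * ec H L 2) := by
  have h := two_stage_count H W L 1 2 one_pos two_pos hL hL'
  rw [N2_one, N2_two, N12_eq] at h
  have hM : 0 ≤ M2 W := integral_nonneg (fun s => integral_nonneg (fun t => by positivity))
  have hV : 0 ≤ ∫ x, W.deg x ^ 2 := integral_nonneg (fun s => sq_nonneg _)
  have hm : 0 ≤ ∫ x, W.deg x := integral_nonneg (fun s => deg_nonneg W s)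
  have h2 := pow_le_pow_left' h 2
  have e2 : ∀ (x : ℝ≥0∞) (c : ℕ), ((x ^ (1 / ((2 : ℕ) : ℝ))) ^ c) ^ 2 = x ^ c := by
    intro x c
    rw [← pow_mul, mul_comm, pow_mul, ← ENNReal.rpow_natCast (x ^ (1 / ((2 : ℕ) : ℝ))),
      ← ENNReal.rpow_mul]
    norm_num
  have e1 : ∀ (x : ℝ≥0∞) (c : ℕ), ((x ^ (1 / ((1 : ℕ) : ℝ))) ^ c) ^ 2 = x ^ (2 * c) := by
    intro x c
    rw [Nat.cast_one, div_one, ENNReal.rpow_one, ← pow_mul, mul_comm]
  rw [mul_pow, mul_pow, e2, e2, e1, ← ENNReal.ofReal_pow (homDensity_nonneg H W),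
    ← ENNReal.ofReal_pow hM, ← ENNReal.ofReal_pow hV, ← ENNReal.ofReal_pow hm,
    ← ENNReal.ofReal_mul (by positivity), ← ENNReal.ofReal_mul (by positivity)] at h2
  exact (ENNReal.ofReal_le_ofReal_iff (by positivity)).mp h2

end Pool.Agent.H959.UT
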