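import Mathlib
import Pool.Agent.H959.UT.Cnt

/-!
MP_bbc525_pr (helper959): the small hub perturbation for a general graph `H`.
-/

set_option autoImplicit false
set_option linter.unusedSectionVars false

namespace Pool.Agent.H959.UT

open MeasureTheory Finset Function Filter Topology
open Pool.Agent.H767R5.UT

variable {V : Type} [Fintype V] [DecidableEq V]

/-- `1` if `t` is in the hub. -/
noncomputable def chi (e t : unitInterval) : ℝ := if t ≤ e then 1 else 0

/-- exactly the vertex `v` is in the hub -/
noncomputable def only (e : unitInterval) (v : V) (x : V → unitInterval) : ℝ :=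
  ∏ w : V, (if w = v then chi e (x w) else 1 - chi e (x w))

/-- no vertex is in the hub -/
noncomputable def none' (e : unitInterval) (x : V → unitInterval) : ℝ :=
  ∏ w : V, (1 - chi e (x w))

theorem int_chi (e : unitInterval) : ∫ t : unitInterval, chi e t = e := by
  have := integral_step e 1 0
  simpa [chi] using this

theorem int_one_sub_chi (e : unitInterval) : ∫ t : unitInterval, (1 - chi e t) = 1 - e := by
  have h : ∀ t : unitInterval, 1 - chi e t = if t ≤ e then 0 else 1 := by
    intro t; unfold chi; split_ifs <;> norm_num
  simp only [h]
  have := integral_step e 0 1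
  simpa using this

theorem int_none (e : unitInterval) :
    ∫ x : V → unitInterval, none' e x = (1 - (e : ℝ)) ^ (Fintype.card V) := by
  unfold none'
  have h := integral_fintype_prod_volume_eq_prod (𝕜 := ℝ) (ι := V)
    (E := fun _ => unitInterval) (fun _ y => 1 - chi e y)
  rw [h]
  simp only [int_one_sub_chi, Finset.prod_const, Finset.card_univ]

theorem prod_single {v : V} (a b : ℝ) :
    ∏ w : V, (if w = v then a else b) = a * b ^ (Fintype.card V - 1) := by
  rw [← Finset.mul_prod_erase Finset.univ _ (Finset.mem_univ v), if_pos rfl]
  congr 1
  rw [Finset.prod_congr rfl (g := fun _ => b) (fun w hw => by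
    rw [if_neg (Finset.ne_of_mem_erase hw)]), Finset.prod_const,
    Finset.card_erase_of_mem (Finset.mem_univ v), Finset.card_univ]

theorem int_only (e : unitInterval) (v : V) :
    ∫ x : V → unitInterval, only e v x = e * (1 - (e : ℝ)) ^ (Fintype.card V - 1) := by
  unfold only
  have h := integral_fintype_prod_volume_eq_prod (𝕜 := ℝ) (ι := V)
    (E := fun _ => unitInterval) (fun w y => if w = v then chi e y else 1 - chi e y)
  rw [h]
  have h2 : ∀ w : V, ∫ y : unitInterval, (if w = v then chi e y else 1 - chi e y) =
      if w = v then (e : ℝ) else 1 - e := by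
    intro w
    split_ifs
    · exact int_chi e
    · exact int_one_sub_chi e
  simp only [h2]
  exact prod_single _ _

theorem chi_measurable (e : unitInterval) : Measurable (chi e) := by
  unfold chi
  exact Measurable.ite measurableSet_Iic measurable_const measurable_const

theorem chi_mem (e t : unitInterval) : 0 ≤ chi e t ∧ chi e t ≤ 1 := by
  unfold chi; split_ifs <;> norm_num

theorem none_integrable (e : unitInterval) :
    Integrable (fun x : V → unitInterval => none' e x) volume := by
  refine bdd_int _ ?_ 1 (fun x => ?_)
  · exact Finset.measurable_prod _ (fun w _ =>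
      measurable_const.sub ((chi_measurable e).comp (measurable_pi_apply w)))
  · unfold none'
    rw [abs_of_nonneg (Finset.prod_nonneg (fun w _ => by linarith [(chi_mem e (x w)).2]))]
    exact Finset.prod_le_one (fun w _ => by linarith [(chi_mem e (x w)).2])
      (fun w _ => by linarith [(chi_mem e (x w)).1])

theorem only_integrable (e : unitInterval) (v : V) :
    Integrable (fun x : V → unitInterval => only e v x) volume := by
  refine bdd_int _ ?_ 1 (fun x => ?_)
  · refine Finset.measurable_prod _ (fun w _ => ?_)
    by_cases h : w = v
    · simp only [h, if_true]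
      exact (chi_measurable e).comp (measurable_pi_apply v)
    · simp only [h, if_false]
      exact measurable_const.sub ((chi_measurable e).comp (measurable_pi_apply w))
  · unfold only
    have h0 : ∀ w : V, 0 ≤ (if w = v then chi e (x w) else 1 - chi e (x w)) := by
      intro w; split_ifs
      · exact (chi_mem e (x w)).1
      · linarith [(chi_mem e (x w)).2]
    have h1 : ∀ w : V, (if w = v then chi e (x w) else 1 - chi e (x w)) ≤ 1 := by
      intro w; split_ifs
      · exact (chi_mem e (x w)).2
      · linarith [(chi_mem e (x w)).1]
    rw [abs_of_nonneg (Finset.prod_nonneg (fun w _ => h0 w))]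
    exact Finset.prod_le_one (fun w _ => h0 w) (fun w _ => h1 w)

theorem inc_le (H : SimpleGraph V) (v : V) : (inc H v).card ≤ (edges H).card :=
  Finset.card_le_card (Finset.filter_subset _ _)

/-- Pointwise lower bound for the edge product of the pod graphon. -/
theorem pod_pointwise (H : SimpleGraph V) (e : unitInterval) (u r : ℝ) (hu0 : 0 ≤ u) (hu1 : u ≤ 1)
    (hr0 : 0 ≤ r) (hr1 : r ≤ 1) (x : V → unitInterval) :
    none' e x * r ^ (edges H).card +
      ∑ v : V, only e v x * (u ^ (inc H v).card * r ^ ((edges H).card - (inc H v).card)) ≤
    ∏ f ∈ edges H, (podGraphon e u r hu0 hu1 hr0 hr1).edgeVal x f := by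
  classical
  by_cases hall : ∀ w, ¬ x w ≤ e
  · -- no vertex in the hub
    have h1 : none' e x = 1 := by
      unfold none'
      apply Finset.prod_eq_one
      intro w _
      unfold chi
      rw [if_neg (hall w)]; ring
    have h2 : ∀ v : V, only e v x = 0 := by
      intro v
      unfold only
      apply Finset.prod_eq_zero (Finset.mem_univ v)
      rw [if_pos rfl]
      unfold chi
      rw [if_neg (hall v)]
    have h3 : ∀ f ∈ edges H, (podGraphon e u r hu0 hu1 hr0 hr1).edgeVal x f = r := by
      intro f _
      induction f with
      | h a b =>
        show (if x a ≤ e ∨ x b ≤ e then u else r) = r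
        rw [if_neg]
        rintro (h | h)
        · exact hall a h
        · exact hall b h
    rw [Finset.prod_congr rfl h3, Finset.prod_const, h1]
    simp only [h2, zero_mul, Finset.sum_const_zero, add_zero, one_mul]
    exact le_rfl
  · push Not at hall
    obtain ⟨v0, hv0⟩ := hall
    have h1 : none' e x = 0 := by
      unfold none'
      apply Finset.prod_eq_zero (Finset.mem_univ v0)
      unfold chi
      rw [if_pos hv0]; ring
    have h2 : ∀ v : V, v ≠ v0 → only e v x = 0 := by
      intro v hv
      unfold only
      apply Finset.prod_eq_zero (Finset.mem_univ v0)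
      rw [if_neg (Ne.symm hv)]
      unfold chi
      rw [if_pos hv0]; ring
    rw [h1, zero_mul, zero_add, Finset.sum_eq_single v0 (fun v _ hv => by rw [h2 v hv, zero_mul])
      (fun h => absurd (Finset.mem_univ v0) h)]
    by_cases hoth : ∀ w, w ≠ v0 → ¬ x w ≤ e
    · have h3 : only e v0 x = 1 := by
        unfold only
        apply Finset.prod_eq_one
        intro w _
        by_cases hw : w = v0
        · rw [if_pos hw, hw]; unfold chi; rw [if_pos hv0]
        · rw [if_neg hw]; unfold chi; rw [if_neg (hoth w hw)]; ring
      have h4 : ∀ f ∈ edges H, (podGraphon e u r hu0 hu1 hr0 hr1).edgeVal x f =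
          if v0 ∈ f then u else r := by
        intro f hf
        induction f with
        | h a b =>
          show (if x a ≤ e ∨ x b ≤ e then u else r) = _
          by_cases hmem : v0 ∈ s(a, b)
          · rw [if_pos hmem, if_pos]
            rw [Sym2.mem_iff] at hmem
            rcases hmem with h | h
            · left; rw [← h]; exact hv0
            · right; rw [← h]; exact hv0
          · rw [if_neg hmem, if_neg]
            rw [Sym2.mem_iff, not_or] at hmem
            rintro (h | h)
            · exact hoth a (Ne.symm hmem.1) h
            · exact hoth b (Ne.symm hmem.2) h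
      rw [Finset.prod_congr rfl h4, Finset.prod_ite, Finset.prod_const, Finset.prod_const, h3,
        one_mul]
      apply le_of_eq
      have h5 : ((edges H).filter (fun f => ¬ v0 ∈ f)).card = (edges H).card - (inc H v0).card := by
        have := Finset.card_filter_add_card_filter_not (s := edges H) (fun f => v0 ∈ f)
        unfold inc
        omega
      rw [h5]
      rfl
    · push Not at hoth
      obtain ⟨w, hw, hwe⟩ := hoth
      have h3 : only e v0 x = 0 := by
        unfold only
        apply Finset.prod_eq_zero (Finset.mem_univ w)
        rw [if_neg hw]; unfold chi; rw [if_pos hwe]; ring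
      rw [h3, zero_mul]
      exact Finset.prod_nonneg (fun f _ => edgeVal_nonneg _ x f)

theorem pod_density (H : SimpleGraph V) (e : unitInterval) (u r : ℝ) (hu0 : 0 ≤ u) (hu1 : u ≤ 1)
    (hr0 : 0 ≤ r) (hr1 : r ≤ 1) :
    (1 - (e : ℝ)) ^ (Fintype.card V) * r ^ (edges H).card +
      ∑ v : V, (e * (1 - (e : ℝ)) ^ (Fintype.card V - 1)) *
        (u ^ (inc H v).card * r ^ ((edges H).card - (inc H v).card)) ≤
    homDensity H (podGraphon e u r hu0 hu1 hr0 hr1) := by
  have hI : Integrable (fun x : V → unitInterval => none' e x * r ^ (edges H).card +
      ∑ v : V, only e v x * (u ^ (inc H v).card * r ^ ((edges H).card - (inc H v).card))) volume :=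
    ((none_integrable e).mul_const _).add
      (integrable_finset_sum _ (fun v _ => (only_integrable e v).mul_const _))
  have hJ : Integrable (fun x : V → unitInterval =>
      ∏ f ∈ edges H, (podGraphon e u r hu0 hu1 hr0 hr1).edgeVal x f) volume := by
    refine bdd_int _ (Finset.measurable_prod _ (fun f _ => edgeVal_measurable _ f)) 1 (fun x => ?_)
    rw [abs_of_nonneg (Finset.prod_nonneg (fun e _ => edgeVal_nonneg _ x e))]
    exact Finset.prod_le_one (fun e _ => edgeVal_nonneg _ x e) (fun e _ => edgeVal_le_one _ x e)
  have h := integral_mono hI hJ (fun x => pod_pointwise H e u r hu0 hu1 hr0 hr1 x)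
  rw [integral_add ((none_integrable e).mul_const _)
    (integrable_finset_sum _ (fun v _ => (only_integrable e v).mul_const _)),
    integral_mul_const, int_none, integral_finset_sum _
      (fun v _ => (only_integrable e v).mul_const _)] at h
  simp only [integral_mul_const, int_only] at h
  exact h

end Pool.Agent.H959.UT
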