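import Mathlib
import Pool.Agent.H959.UT.Hub

/-!
MP_bbc525_pr (helper959): a necessary condition for replica symmetry, for every graph.
-/

set_option autoImplicit false
set_option linter.unusedSectionVars false

namespace Pool.Agent.H959.UT

open MeasureTheory Finset Function Filter Topology
open Pool.Agent.H767R5.UT

variable {V : Type} [Fintype V] [DecidableEq V]

/-- Symmetry breaking by a small hub. -/
theorem hub_exists (H : SimpleGraph V) {p q u : ℝ} (hE : 0 < (edges H).card) (hp0 : 0 < p)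
    (hp1 : p < 1) (hq0 : 0 < q) (hq1 : q < 1) (hu0 : 0 ≤ u) (hu1 : u ≤ 1)
    (hlam : 0 < (Real.log q - Real.log (1 - q)) - (Real.log p - Real.log (1 - p)))
    (hU : 2 * (Ip p u - Ip p q) * (edges H).card <
      ((Real.log q - Real.log (1 - q)) - (Real.log p - Real.log (1 - p))) *
        (q * ∑ v : V, ((u / q) ^ (inc H v).card - 1))) :
    ∃ W : Graphon, Feasible H q W ∧ cost p W < Ip p q := by
  set lam := (Real.log q - Real.log (1 - q)) - (Real.log p - Real.log (1 - p)) with hlamdef
  set E := (edges H).card with hEdef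
  have hE' : (0 : ℝ) < E := by exact_mod_cast hE
  have hwin : 2 * (Ip p u - Ip p q) / lam <
      (q * ∑ v : V, ((u / q) ^ (inc H v).card - 1)) / E := by
    rw [div_lt_div_iff₀ hlam hE']
    linarith
  obtain ⟨κ, hκ1, hκ2⟩ := exists_between hwin
  rw [div_lt_iff₀ hlam] at hκ1
  rw [lt_div_iff₀ hE'] at hκ2
  have hr : HasDerivAt (fun e : ℝ => q - κ * e) (-κ) 0 := by
    have := ((hasDerivAt_id (0 : ℝ)).const_mul κ).const_sub q
    simpa using this
  have hid := hasDerivAt_id (0 : ℝ)
  have h1e : HasDerivAt (fun e : ℝ => 1 - e) (-1) 0 := hid.const_sub 1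
  -- the density lower bound
  set T : ℝ → ℝ := fun e => (1 - e) ^ (Fintype.card V) * (q - κ * e) ^ E +
      ∑ v : V, (e * (1 - e) ^ (Fintype.card V - 1)) *
        (u ^ (inc H v).card * (q - κ * e) ^ (E - (inc H v).card)) with hT
  have hT0 : T 0 = q ^ E := by
    simp [hT]
  have hTd : HasDerivAt T (-(Fintype.card V : ℝ) * q ^ E - E * q ^ (E - 1) * κ +
      ∑ v : V, u ^ (inc H v).card * q ^ (E - (inc H v).card)) 0 := by
    have hA : HasDerivAt (fun e : ℝ => (1 - e) ^ (Fintype.card V) * (q - κ * e) ^ E)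
        (-(Fintype.card V : ℝ) * q ^ E - E * q ^ (E - 1) * κ) 0 := by
      refine ((h1e.pow (Fintype.card V)).mul (hr.pow E)).congr_deriv ?_
      simp
      ring
    have hB : ∀ v ∈ (Finset.univ : Finset V), HasDerivAt (fun e : ℝ =>
        (e * (1 - e) ^ (Fintype.card V - 1)) *
        (u ^ (inc H v).card * (q - κ * e) ^ (E - (inc H v).card)))
        (u ^ (inc H v).card * q ^ (E - (inc H v).card)) 0 := by
      intro v _
      have c1 : HasDerivAt (fun e : ℝ => e * (1 - e) ^ (Fintype.card V - 1)) 1 0 := by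
        refine (hid.mul (h1e.pow (Fintype.card V - 1))).congr_deriv ?_
        simp
      have c2 : HasDerivAt (fun e : ℝ => u ^ (inc H v).card * (q - κ * e) ^ (E - (inc H v).card))
          (u ^ (inc H v).card * (((E - (inc H v).card : ℕ) : ℝ) *
            (q - κ * 0) ^ (E - (inc H v).card - 1) * (-κ))) 0 :=
        (hr.pow (E - (inc H v).card)).const_mul _
      refine (c1.mul c2).congr_deriv ?_
      simp
    exact hA.add (HasDerivAt.fun_sum hB)
  have evT := pos_deriv hTd (by
    have e1 : (E : ℝ) * q ^ (E - 1) = E * q ^ E / q := by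
      obtain ⟨a', ha'⟩ : ∃ a', E = a' + 1 := ⟨E - 1, by omega⟩
      rw [ha', Nat.add_sub_cancel, pow_succ]
      field_simp
    have e2 : ∀ v : V, u ^ (inc H v).card * q ^ (E - (inc H v).card) =
        q ^ E * (u / q) ^ (inc H v).card := by
      intro v
      have h3 : E = (E - (inc H v).card) + (inc H v).card := by
        have := inc_le H v
        omega
      have h4 : q ^ E = q ^ (E - (inc H v).card) * q ^ (inc H v).card := by
        rw [← pow_add, ← h3]
      have h5 : q ^ (inc H v).card * (u ^ (inc H v).card / q ^ (inc H v).card) =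
          u ^ (inc H v).card := by
        rw [mul_comm]; exact div_mul_cancel₀ _ (pow_ne_zero _ hq0.ne')
      rw [h4, div_pow, mul_assoc, h5, mul_comm]
    simp only [e2]
    rw [e1, ← Finset.mul_sum]
    have e3 : ∑ v : V, ((u / q) ^ (inc H v).card - 1) =
        ∑ v : V, (u / q) ^ (inc H v).card - (Fintype.card V : ℝ) := by
      rw [Finset.sum_sub_distrib]
      simp
    rw [e3] at hκ2
    have e4 : -(Fintype.card V : ℝ) * q ^ E - E * q ^ E / q * κ +
        q ^ E * ∑ v : V, (u / q) ^ (inc H v).card =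
        q ^ E / q * (q * (∑ v : V, (u / q) ^ (inc H v).card - (Fintype.card V : ℝ)) - κ * E) := by
      field_simp
      ring
    rw [e4]
    apply mul_pos (by positivity)
    linarith)
  have hC : HasDerivAt (fun e : ℝ => podC p u e (q - κ * e))
      (2 * Ip p u - 2 * Ip p q - κ * lam) 0 := by
    have h0 : HasDerivAt (Ip p) lam (q - κ * 0) := by
      rw [mul_zero, sub_zero]; exact hasDerivAt_Ip hp0 hp1 hq0 hq1
    have h1 : HasDerivAt (Ip p ∘ fun e : ℝ => q - κ * e) (lam * (-κ)) 0 :=
      HasDerivAt.comp (0 : ℝ) (h₂ := Ip p) h0 hr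
    have h2 : HasDerivAt (fun e : ℝ => (1 - e) ^ 2) (-2) 0 := by
      refine (h1e.pow 2).congr_deriv ?_
      simp
    have h3 : HasDerivAt (fun e : ℝ => (1 - (1 - e) ^ 2) * Ip p u) (2 * Ip p u) 0 := by
      refine ((h2.const_sub 1).mul_const _).congr_deriv ?_
      ring
    refine (h3.add (h2.mul h1)).congr_deriv ?_
    simp
    ring
  have evC := pos_deriv hC.neg (by linarith)
  have hrc : Tendsto (fun e : ℝ => q - κ * e) (𝓝[>] 0) (𝓝 q) := by
    have h1 : Continuous (fun e : ℝ => q - κ * e) := by fun_prop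
    have := (h1.tendsto 0).mono_left (nhdsWithin_le_nhds (s := Set.Ioi (0 : ℝ)))
    simpa using this
  have ev1 := hrc.eventually (lt_mem_nhds hq0)
  have ev2 := hrc.eventually (gt_mem_nhds hq1)
  have ev3 : ∀ᶠ e in 𝓝[>] (0 : ℝ), e < 1 := nhdsWithin_le_nhds (gt_mem_nhds one_pos)
  obtain ⟨e, h1, h2, h3, h4, h5, h6⟩ := (evT.and (evC.and (ev1.and (ev2.and
    (ev3.and self_mem_nhdsWithin))))).exists
  have h6' : 0 < e := h6
  let e' : unitInterval := ⟨e, h6'.le, h5.le⟩
  refine ⟨podGraphon e' u (q - κ * e) hu0 hu1 h3.le h4.le, ?_, ?_⟩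
  · have hd := pod_density H e' u (q - κ * e) hu0 hu1 h3.le h4.le
    unfold Feasible
    rw [← edges_card, ← hEdef]
    refine le_trans ?_ hd
    rw [hT0] at h1
    exact h1.le
  · rw [pod_cost hp0 hp1]
    have hC0 : podC p u 0 (q - κ * 0) = Ip p q := by unfold podC; ring_nf
    simp only [Pi.neg_apply, hC0] at h2
    show podC p u e (q - κ * e) < Ip p q
    linarith

theorem UT_bdd (H : SimpleGraph V) {p q : ℝ} (hp0 : 0 < p) (hp1 : p < 1) :
    BddBelow {c | ∃ W : Graphon, Feasible H q W ∧ c = cost p W} :=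
  ⟨0, by rintro c ⟨W, _, rfl⟩; exact cost_nonneg hp0 hp1 W⟩

theorem const_density (H : SimpleGraph V) {q : ℝ} (h0 : 0 ≤ q) (h1 : q ≤ 1) :
    homDensity H (constGraphon q h0 h1) = q ^ H.edgeSet.ncard := by
  unfold homDensity
  have h : ∀ x : V → unitInterval, ∏ e ∈ (Set.toFinite H.edgeSet).toFinset,
      (constGraphon q h0 h1).edgeVal x e = q ^ H.edgeSet.ncard := by
    intro x
    have h2 : ∀ e ∈ (Set.toFinite H.edgeSet).toFinset,
        (constGraphon q h0 h1).edgeVal x e = q := by
      intro e _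
      induction e with
      | h a b => rfl
    rw [Finset.prod_congr rfl h2, Finset.prod_const, ← Set.ncard_eq_toFinset_card _ _]
  simp only [h]
  simp

theorem const_feasible (H : SimpleGraph V) {q : ℝ} (h0 : 0 ≤ q) (h1 : q ≤ 1) :
    Feasible H q (constGraphon q h0 h1) := (const_density H h0 h1).ge

theorem UT_le (H : SimpleGraph V) {p q : ℝ} (hp0 : 0 < p) (hpq : p ≤ q) (hq1 : q < 1) :
    UT H p q ≤ Ip p q :=
  csInf_le (UT_bdd H hp0 (by linarith)) ⟨constGraphon q (by linarith) hq1.le,
    const_feasible H _ _, (cost_const _ _).symm⟩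

theorem lam_pos {p q : ℝ} (hp0 : 0 < p) (hpq : p < q) (hq1 : q < 1) :
    0 < (Real.log q - Real.log (1 - q)) - (Real.log p - Real.log (1 - p)) := by
  have h1 := Real.log_lt_log hp0 hpq
  have h2 := Real.log_lt_log (by linarith : 0 < 1 - q) (by linarith : 1 - q < 1 - p)
  linarith

/-- The necessary condition. -/
theorem necessary (H : SimpleGraph V) (hE : 0 < (edges H).card) {p q : ℝ} (hp0 : 0 < p)
    (hpq : p ≤ q) (hq1 : q < 1) (hRS : UT H p q = Ip p q) {u : ℝ} (hu0 : 0 ≤ u) (hu1 : u ≤ 1) :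
    ((Real.log q - Real.log (1 - q)) - (Real.log p - Real.log (1 - p))) *
      (q * ∑ v : V, ((u / q) ^ (inc H v).card - 1)) ≤
      2 * (Ip p u - Ip p q) * (edges H).card := by
  have hq0 : 0 < q := by linarith
  have hp1 : p < 1 := by linarith
  rcases hpq.eq_or_lt with h | h
  · subst h
    have h1 : Ip p p = 0 := by
      rw [Ip_eq hp0 hp1]; unfold Hf; ring
    have h2 := Ip_nonneg hp0 hp1 hu0 hu1
    rw [h1, sub_self, zero_mul]
    have h3 : (0 : ℝ) ≤ (edges H).card := Nat.cast_nonneg _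
    have h4 : 0 ≤ Ip p u * (edges H).card := mul_nonneg h2 h3
    linarith
  · by_contra hcon
    push Not at hcon
    obtain ⟨W, hW, hc⟩ := hub_exists H hE hp0 hp1 hq0 hq1 hu0 hu1 (lam_pos hp0 h hq1) hcon
    have := csInf_le (UT_bdd H (p := p) (q := q) hp0 hp1) ⟨W, hW, rfl⟩
    unfold UT at hRS
    linarith

end Pool.Agent.H959.UT
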