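import Mathlib
import Pool.Graph.R_seed8.H767R5.UT.Main

/-!
MP_bbc525_pr (helper959): scalar inequalities for maximum degree two.
-/

set_option autoImplicit false

namespace Pool.Agent.H959.UT

open MeasureTheory Filter Topology Set
open Pool.Agent.H767R5.UT

/-- `D(x ‖ y) = x log (x / y) + y - x`. -/
noncomputable def DD (x y : ℝ) : ℝ := x * (Real.log x - Real.log y) + (y - x)

theorem DD_tangent {x y δ : ℝ} (hδ : 0 < δ) (hx : 0 ≤ x) :
    DD δ y + (Real.log δ - Real.log y) * (x - δ) ≤ DD x y := by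
  unfold DD
  rcases hx.eq_or_lt with h | h
  · rw [← h]; nlinarith
  · have := log_ineq h hδ
    nlinarith

theorem DD_zero (y : ℝ) : DD 0 y = y := by unfold DD; ring

/-- The Bregman bound on the closed interval. -/
theorem breg_closed {s b : ℝ} (hs0 : 0 ≤ s) (hs1 : s ≤ 1) (hb0 : 0 ≤ b) (hb1 : b < 1) :
    (1 / 6) * ((1 - s) * (Real.log (1 - s) - Real.log (1 - b)) + (s - b)) ≤
      Hf ((1 + Real.sqrt s) / 2) - Hf ((1 + Real.sqrt b) / 2) - Aser b / 2 * (s - b) := by
  have open_case : ∀ t, 0 ≤ t → t < 1 →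
      (1 / 6) * ((1 - t) * (Real.log (1 - t) - Real.log (1 - b)) + (t - b)) ≤
      Hf ((1 + Real.sqrt t) / 2) - Hf ((1 + Real.sqrt b) / 2) - Aser b / 2 * (t - b) := by
    intro t h0 h1
    have h := Phi_breg h0 h1 hb0 hb1
    rw [Phi_eq_Hf h0 h1, Phi_eq_Hf hb0 hb1] at h
    linarith
  rcases hs1.eq_or_lt with h | h
  · subst h
    set g : ℝ → ℝ := fun t => Hf ((1 + Real.sqrt t) / 2) - Hf ((1 + Real.sqrt b) / 2) -
      Aser b / 2 * (t - b) - (1 / 6) * ((1 - t) * Real.log (1 - t) - (1 - t) * Real.log (1 - b) +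
        (t - b)) with hg
    have hc : Continuous g := by
      have h1 := continuous_Hf
      have h2 : Continuous (fun t : ℝ => (1 - t) * Real.log (1 - t)) :=
        Real.continuous_mul_log.comp (continuous_const.sub continuous_id)
      simp only [hg]
      fun_prop
    have hseq : Tendsto (fun n : ℕ => 1 - 1 / ((n : ℝ) + 1)) atTop (𝓝 (1 - 0)) :=
      tendsto_one_div_add_atTop_nhds_zero_nat.const_sub _
    rw [sub_zero] at hseq
    have hlim := (hc.tendsto 1).comp hseq
    have hnn : 0 ≤ g 1 := by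
      refine ge_of_tendsto' hlim (fun n => ?_)
      have hn : (0 : ℝ) < (n : ℝ) + 1 := by positivity
      have hn1 : 1 / ((n : ℝ) + 1) ≤ 1 := by
        rw [div_le_one hn]; linarith [Nat.cast_nonneg (α := ℝ) n]
      have hn0 : 0 < 1 / ((n : ℝ) + 1) := by positivity
      have := open_case (1 - 1 / ((n : ℝ) + 1)) (by linarith) (by linarith)
      simp only [Function.comp, hg]
      linarith
    simp only [hg] at hnn
    linarith
  · exact open_case s hs0 h

theorem Hf_symm (w : ℝ) : Hf (1 - w) = Hf w := by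
  unfold Hf
  have : 1 - (1 - w) = w := by ring
  rw [this]; ring

theorem Hf_sqrt (w : ℝ) : Hf ((1 + Real.sqrt ((2 * w - 1) ^ 2)) / 2) = Hf w := by
  rw [Real.sqrt_sq_eq_abs]
  rcases le_total 0 (2 * w - 1) with h | h
  · rw [abs_of_nonneg h]
    congr 1; ring
  · rw [abs_of_nonpos h, ← Hf_symm w]
    congr 1; ring

theorem four_DD {x y : ℝ} (hy : 0 < y) :
    (4 * x) * (Real.log (4 * x) - Real.log (4 * y)) + (4 * y - 4 * x) = 4 * DD x y := by
  unfold DD
  rcases eq_or_ne x 0 with h | h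
  · rw [h]; ring
  · rw [Real.log_mul (by norm_num) h, Real.log_mul (by norm_num) hy.ne']
    ring

/-- The Bregman bound in the variables `m - v` and `q - q²`. -/
theorem breg_DD {s q x : ℝ} (hq0 : 0 < q) (hq1 : q < 1) (hs0 : 0 ≤ s) (hs1 : s ≤ 1)
    (hx : 1 - s = 4 * x) :
    Hf q + Aser ((2 * q - 1) ^ 2) / 2 * (s - (2 * q - 1) ^ 2) + (2 / 3) * DD x (q - q ^ 2) ≤
      Hf ((1 + Real.sqrt s) / 2) := by
  have hb1 : (2 * q - 1) ^ 2 < 1 := by nlinarith
  have h := breg_closed hs0 hs1 (sq_nonneg (2 * q - 1)) hb1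
  rw [Hf_sqrt, hx] at h
  have e1 : 1 - (2 * q - 1) ^ 2 = 4 * (q - q ^ 2) := by ring
  have e2 : s - (2 * q - 1) ^ 2 = 4 * (q - q ^ 2) - 4 * x := by linarith
  have hy : 0 < q - q ^ 2 := by nlinarith
  have h4 := four_DD (x := x) hy
  rw [e1] at h
  have e3 : (1 / 6 : ℝ) * (4 * x * (Real.log (4 * x) - Real.log (4 * (q - q ^ 2))) +
      (s - (2 * q - 1) ^ 2)) = (2 / 3) * DD x (q - q ^ 2) := by
    rw [e2]; linarith
  rw [e3] at h
  linarith

/-- `I_q(m) ≤ D(m - q² ‖ q - q²)` on the closed interval. -/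
theorem Hf_upper {q m : ℝ} (hq0 : 0 < q) (hq1 : q < 1) (hm : q ^ 2 ≤ m) (hmq : m ≤ q) :
    Hf m ≤ Hf q + (m - q) * (2 * (2 * q - 1) * Aser ((2 * q - 1) ^ 2)) +
      DD (m - q ^ 2) (q - q ^ 2) := by
  rw [← logit_eq hq0 hq1]
  have h7 : Hf m - Hf q = (m * (Real.log m - Real.log q) +
      (1 - m) * (Real.log (1 - m) - Real.log (1 - q))) +
      (m - q) * (Real.log q - Real.log (1 - q)) := by
    unfold Hf; ring
  rcases hm.eq_or_lt with h | h
  · rw [← h] at h7 ⊢
    rw [sub_self, DD_zero]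
    have hl1 := Real.log_le_sub_one_of_pos hq0
    have hl2 := Real.log_le_sub_one_of_pos (by linarith : 0 < 1 + q)
    have e1 : Real.log (q ^ 2) = 2 * Real.log q := by rw [Real.log_pow]; norm_num
    have e2 : Real.log (1 - q ^ 2) = Real.log (1 - q) + Real.log (1 + q) := by
      rw [← Real.log_mul (by linarith) (by linarith)]; ring_nf
    rw [e1, e2] at h7
    have hq2 : 0 < q ^ 2 := by positivity
    have hq2' : 0 < 1 - q ^ 2 := by nlinarith
    have h1 := mul_le_mul_of_nonneg_left hl1 hq2.le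
    have h2 := mul_le_mul_of_nonneg_left hl2 hq2'.le
    nlinarith
  · have h5 := Iq_le_Dq hq0 hq1 h hmq
    unfold Dq at h5
    unfold DD
    have e : q - q ^ 2 - (m - q ^ 2) = q - m := by ring
    rw [e]
    linarith

/-- The scalar inequality. -/
theorem scal {q m M v c A α a b L : ℝ} (hq0 : 0 < q) (hq1 : q < 1) (hmq : m < q) (hMm : M ≤ m)
    (hvm : v ≤ m) (hα : 0 ≤ α) (ha : 0 ≤ a) (hb : 0 ≤ b) (hαa : 0 < α + a)
    (hX : 2 * A * (M - q ^ 2) + 2 * A * (q - m) + (2 / 3) * DD (m - M) (q - q ^ 2) ≤ c)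
    (hV : q ^ 2 ≤ m → 4 * A * (v - q ^ 2) + 2 * A * (1 + 2 * q) * (q - m) +
      (4 / 3) * DD (m - v) (q - q ^ 2) - DD (m - q ^ 2) (q - q ^ 2) ≤ c)
    (hlin : b * q * (q - m) ≤ α * (M - q ^ 2) + a * (v - q ^ 2)) (hA : 0 ≤ A)
    (hL : (2 * α + a) * L ≤ 2 * A * ((2 * α + a) + (2 * a + 2 * b) * q)) :
    L * (q - m) < c := by
  have hbq : 0 ≤ b * q * (q - m) := by
    have : 0 ≤ q - m := by linarith
    positivity
  have hm2 : q ^ 2 ≤ m := by
    by_contra hcon
    push Not at hcon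
    have h1 : α * (M - q ^ 2) ≤ α * (m - q ^ 2) := mul_le_mul_of_nonneg_left (by linarith) hα
    have h2 : a * (v - q ^ 2) ≤ a * (m - q ^ 2) := mul_le_mul_of_nonneg_left (by linarith) ha
    have h3 : 0 ≤ (α + a) * (m - q ^ 2) := by linarith
    have h4 := mul_neg_of_pos_of_neg hαa (by linarith : m - q ^ 2 < 0)
    linarith
  have hV' := hV hm2
  set y := q - q ^ 2 with hy
  have hy0 : 0 < y := by rw [hy]; nlinarith
  have hD0 : 0 < DD (m - q ^ 2) y := by
    have := Dq_pos hq0 hq1 hm2 hmq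
    unfold Dq at this
    unfold DD
    have e : y - (m - q ^ 2) = q - m := by rw [hy]; ring
    rw [e]; exact this
  -- convexity
  have hconv : (α + a) * DD (m - q ^ 2) y ≤ α * DD (m - M) y + a * DD (m - v) y := by
    rcases hm2.eq_or_lt with h | h
    · have h1 : α * (M - q ^ 2) ≤ 0 := mul_nonpos_of_nonneg_of_nonpos hα (by linarith)
      have h2 : a * (v - q ^ 2) ≤ 0 := mul_nonpos_of_nonneg_of_nonpos ha (by linarith)
      have h3 : α * (M - q ^ 2) = 0 := by linarith
      have h4 : a * (v - q ^ 2) = 0 := by linarith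
      have e1 : α * DD (m - M) y = α * DD (m - q ^ 2) y := by
        rcases mul_eq_zero.mp h3 with h5 | h5
        · rw [h5]; ring
        · have : M = q ^ 2 := by linarith
          rw [this]
      have e2 : a * DD (m - v) y = a * DD (m - q ^ 2) y := by
        rcases mul_eq_zero.mp h4 with h5 | h5
        · rw [h5]; ring
        · have : v = q ^ 2 := by linarith
          rw [this]
      rw [e1, e2]
      linarith
    · have hδ : 0 < m - q ^ 2 := by linarith
      have t1 := DD_tangent (y := y) hδ (by linarith : 0 ≤ m - M)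
      have t2 := DD_tangent (y := y) hδ (by linarith : 0 ≤ m - v)
      have u1 := mul_le_mul_of_nonneg_left t1 hα
      have u2 := mul_le_mul_of_nonneg_left t2 ha
      have hlog : Real.log (m - q ^ 2) - Real.log y ≤ 0 := by
        have := Real.log_le_log hδ (by rw [hy]; linarith : m - q ^ 2 ≤ y)
        linarith
      have h5 : (Real.log (m - q ^ 2) - Real.log y) * (α * (M - q ^ 2) + a * (v - q ^ 2)) ≤ 0 :=
        mul_nonpos_of_nonpos_of_nonneg hlog (by linarith)
      nlinarith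
  have w1 := mul_le_mul_of_nonneg_left hX (by linarith : 0 ≤ 2 * α)
  have w2 := mul_le_mul_of_nonneg_left hV' ha
  have hn : 0 < 2 * α + a := by
    rcases hα.eq_or_lt with h | h
    · rw [← h] at hαa ⊢; linarith
    · linarith
  have w3 := mul_le_mul_of_nonneg_right hL (by linarith : 0 ≤ q - m)
  have w4 := mul_le_mul_of_nonneg_left hlin (by linarith : 0 ≤ 4 * A)
  have w5 : 0 < (α + a) * DD (m - q ^ 2) y := mul_pos hαa hD0
  have w6 : 0 ≤ α * DD (m - q ^ 2) y := mul_nonneg hα hD0.le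
  have key : (2 * α + a) * (L * (q - m)) < (2 * α + a) * c := by nlinarith
  exact lt_of_mul_lt_mul_left key hn.le

end Pool.Agent.H959.UT
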