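import Mathlib
import Pool.Agent.H959.UT.Scal
import Pool.Agent.H959.UT.Bound
import Pool.Agent.H959.UT.Nec

/-!
MP_bbc525_pr (helper959): sufficiency for maximum degree two.
-/

set_option autoImplicit false
set_option linter.unusedSectionVars false

namespace Pool.Agent.H959.UT

open MeasureTheory Filter Topology Set
open Pool.Agent.H767R5.UT

/-- `∫∫ H(W)`. -/
noncomputable def entW (W : Graphon) : ℝ := ∫ z : unitInterval × unitInterval, Hf (W.toFun z.1 z.2)

theorem int_cont (W : Graphon) {f : ℝ → ℝ} (hf : Continuous f) :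
    Integrable (fun z : unitInterval × unitInterval => f (W.toFun z.1 z.2)) volume := by
  obtain ⟨C, hC⟩ := (isCompact_Icc (a := (0 : ℝ)) (b := 1)).exists_bound_of_continuousOn
    hf.continuousOn
  exact bdd_int _ (hf.measurable.comp W.measurable) C (fun z => hC _ ⟨W.nonneg _ _, W.le_one _ _⟩)

theorem int_m (W : Graphon) : ∫ z : unitInterval × unitInterval, W.toFun z.1 z.2 = ∫ x, W.deg x := by
  have h : Integrable (fun z : unitInterval × unitInterval => W.toFun z.1 z.2) volume :=
    int_cont W continuous_id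
  rw [Measure.volume_eq_prod] at h ⊢
  rw [integral_prod _ h]
  rfl

theorem int_M (W : Graphon) : ∫ z : unitInterval × unitInterval, W.toFun z.1 z.2 ^ 2 = M2 W := by
  have h := int_cont W (continuous_pow 2)
  rw [Measure.volume_eq_prod] at h ⊢
  rw [integral_prod _ h]
  rfl

theorem M2_le (W : Graphon) : M2 W ≤ ∫ x, W.deg x := by
  rw [← int_m, ← int_M]
  apply integral_mono (int_cont W (continuous_pow 2)) (int_cont W continuous_id)
  intro z
  have h0 := W.nonneg z.1 z.2
  have h1 := W.le_one z.1 z.2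
  show W.toFun z.1 z.2 ^ 2 ≤ id (W.toFun z.1 z.2)
  simp only [id]
  nlinarith

theorem V_le (W : Graphon) : ∫ x, W.deg x ^ 2 ≤ ∫ x, W.deg x := by
  apply integral_mono
  · exact bdd_int _ ((deg_measurable W).pow_const 2) 1 (fun s => by
      rw [abs_of_nonneg (sq_nonneg _)]
      exact pow_le_one₀ (deg_nonneg W s) (deg_le_one W s))
  · exact bdd_int _ (deg_measurable W) 1 (fun s => by
      rw [abs_of_nonneg (deg_nonneg W s)]; exact deg_le_one W s)
  · intro x
    have h0 := deg_nonneg W x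
    have h1 := deg_le_one W x
    show W.deg x ^ 2 ≤ W.deg x
    nlinarith

/-- The bound (X) with a free tangent point. -/
theorem boundX_aux (W : Graphon) {q δ : ℝ} (hq0 : 0 < q) (hq1 : q < 1) (hδ : 0 < δ) :
    Hf q + Aser ((2 * q - 1) ^ 2) / 2 * (4 * M2 W - 4 * (∫ x, W.deg x) + 1 - (2 * q - 1) ^ 2) +
      (2 / 3) * (DD δ (q - q ^ 2) + (Real.log δ - Real.log (q - q ^ 2)) *
        ((∫ x, W.deg x) - M2 W - δ)) ≤ entW W := by
  set A := Aser ((2 * q - 1) ^ 2) with hA
  set y := q - q ^ 2 with hy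
  have hpt : ∀ z : unitInterval × unitInterval,
      (Hf q + A / 2 * (1 - (2 * q - 1) ^ 2) + (2 / 3) * (DD δ y - (Real.log δ - Real.log y) * δ)) +
      (2 * A - (2 / 3) * (Real.log δ - Real.log y)) * W.toFun z.1 z.2 ^ 2 +
      ((2 / 3) * (Real.log δ - Real.log y) - 2 * A) * W.toFun z.1 z.2 ≤ Hf (W.toFun z.1 z.2) := by
    intro z
    set w := W.toFun z.1 z.2 with hw
    have h0 : 0 ≤ w := W.nonneg _ _
    have h1 : w ≤ 1 := W.le_one _ _
    have hb := breg_DD (s := (2 * w - 1) ^ 2) (x := w - w ^ 2) hq0 hq1 (sq_nonneg _)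
      (by nlinarith) (by ring)
    rw [Hf_sqrt, ← hA, ← hy] at hb
    have ht := DD_tangent (y := y) hδ (by nlinarith : 0 ≤ w - w ^ 2)
    nlinarith
  have i2 := int_cont W (continuous_pow 2)
  have i1 := int_cont W continuous_id
  have j2 : Integrable (fun z : unitInterval × unitInterval =>
      (2 * A - (2 / 3) * (Real.log δ - Real.log y)) * W.toFun z.1 z.2 ^ 2) volume := i2.const_mul _
  have j1 : Integrable (fun z : unitInterval × unitInterval =>
      ((2 / 3) * (Real.log δ - Real.log y) - 2 * A) * W.toFun z.1 z.2) volume := i1.const_mul _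
  have j0 : Integrable (fun _ : unitInterval × unitInterval => Hf q + A / 2 * (1 - (2 * q - 1) ^ 2) +
      (2 / 3) * (DD δ y - (Real.log δ - Real.log y) * δ)) volume := integrable_const _
  have hmono := integral_mono ((j0.add j2).add j1) (int_cont W continuous_Hf) hpt
  have hval : ∫ z : unitInterval × unitInterval,
      ((Hf q + A / 2 * (1 - (2 * q - 1) ^ 2) + (2 / 3) * (DD δ y - (Real.log δ - Real.log y) * δ)) +
      (2 * A - (2 / 3) * (Real.log δ - Real.log y)) * W.toFun z.1 z.2 ^ 2 +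
      ((2 / 3) * (Real.log δ - Real.log y) - 2 * A) * W.toFun z.1 z.2) =
      (Hf q + A / 2 * (1 - (2 * q - 1) ^ 2) + (2 / 3) * (DD δ y - (Real.log δ - Real.log y) * δ)) +
      (2 * A - (2 / 3) * (Real.log δ - Real.log y)) * M2 W +
      ((2 / 3) * (Real.log δ - Real.log y) - 2 * A) * (∫ x, W.deg x) := by
    have j02 : Integrable (fun z : unitInterval × unitInterval =>
      (Hf q + A / 2 * (1 - (2 * q - 1) ^ 2) + (2 / 3) * (DD δ y - (Real.log δ - Real.log y) * δ)) +
      (2 * A - (2 / 3) * (Real.log δ - Real.log y)) * W.toFun z.1 z.2 ^ 2) volume := j0.add j2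
    rw [integral_add j02 j1, integral_add j0 j2, integral_const_mul, integral_const_mul, int_m,
      int_M]
    simp
  have hmono' : ∫ z : unitInterval × unitInterval,
      ((Hf q + A / 2 * (1 - (2 * q - 1) ^ 2) + (2 / 3) * (DD δ y - (Real.log δ - Real.log y) * δ)) +
      (2 * A - (2 / 3) * (Real.log δ - Real.log y)) * W.toFun z.1 z.2 ^ 2 +
      ((2 / 3) * (Real.log δ - Real.log y) - 2 * A) * W.toFun z.1 z.2) ≤ entW W := hmono
  rw [hval] at hmono'
  nlinarith

theorem boundX (W : Graphon) {q : ℝ} (hq0 : 0 < q) (hq1 : q < 1) :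
    2 * Aser ((2 * q - 1) ^ 2) * (M2 W - q ^ 2) + 2 * Aser ((2 * q - 1) ^ 2) *
      (q - ∫ x, W.deg x) + (2 / 3) * DD ((∫ x, W.deg x) - M2 W) (q - q ^ 2) ≤ entW W - Hf q := by
  set A := Aser ((2 * q - 1) ^ 2) with hA
  set m := ∫ x, W.deg x with hm
  have hle : M2 W ≤ m := M2_le W
  rcases hle.eq_or_lt with h | h
  · rw [h, sub_self, DD_zero]
    have key : ∀ δ : ℝ, 0 < δ → 2 * A * (m - q ^ 2) + 2 * A * (q - m) + (2 / 3) * (q - q ^ 2) ≤
        entW W - Hf q + δ := by
      intro δ hδ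
      have := boundX_aux W hq0 hq1 hδ
      rw [← hA, ← hm, h] at this
      unfold DD at this
      nlinarith
    exact le_of_forall_pos_le_add key
  · have := boundX_aux W hq0 hq1 (by linarith : 0 < m - M2 W)
    rw [← hA, ← hm] at this
    nlinarith

theorem boundV (W : Graphon) {q : ℝ} (hq0 : 0 < q) (hq1 : q < 1) (hmq : (∫ x, W.deg x) ≤ q)
    (hm2 : q ^ 2 ≤ ∫ x, W.deg x) :
    4 * Aser ((2 * q - 1) ^ 2) * ((∫ x, W.deg x ^ 2) - q ^ 2) +
      2 * Aser ((2 * q - 1) ^ 2) * (1 + 2 * q) * (q - ∫ x, W.deg x) +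
      (4 / 3) * DD ((∫ x, W.deg x) - ∫ x, W.deg x ^ 2) (q - q ^ 2) -
      DD ((∫ x, W.deg x) - q ^ 2) (q - q ^ 2) ≤ entW W - Hf q := by
  have hgen := entropy_general (volume : Measure unitInterval) W.toFun W.measurable W.symm
    W.nonneg W.le_one
  have hs : ∫ x, (2 * (∫ y, W.toFun x y) - 1) ^ 2 =
      4 * (∫ x, W.deg x ^ 2) - 4 * (∫ x, W.deg x) + 1 := by
    have e : ∀ x, (2 * (∫ y, W.toFun x y) - 1) ^ 2 = (4 * W.deg x ^ 2 - 4 * W.deg x) + 1 := by
      intro x
      unfold Graphon.deg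
      ring
    have k2 : Integrable (fun x => W.deg x ^ 2) (volume : Measure unitInterval) :=
      bdd_int _ ((deg_measurable W).pow_const 2) 1 (fun s => by
        rw [abs_of_nonneg (sq_nonneg _)]
        exact pow_le_one₀ (deg_nonneg W s) (deg_le_one W s))
    have k1 : Integrable (fun x => W.deg x) (volume : Measure unitInterval) :=
      bdd_int _ (deg_measurable W) 1 (fun s => by
        rw [abs_of_nonneg (deg_nonneg W s)]; exact deg_le_one W s)
    have j1 : Integrable (fun x => 4 * W.deg x ^ 2) volume := k2.const_mul 4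
    have j2 : Integrable (fun x => 4 * W.deg x) volume := k1.const_mul 4
    have j3 : Integrable (fun x => 4 * W.deg x ^ 2 - 4 * W.deg x) volume := j1.sub j2
    simp only [e]
    rw [integral_add j3 (integrable_const _), integral_sub j1 j2, integral_const_mul,
      integral_const_mul]
    simp
  have hs0 : 0 ≤ ∫ x, (2 * (∫ y, W.toFun x y) - 1) ^ 2 := integral_nonneg (fun x => sq_nonneg _)
  rw [hs] at hgen hs0
  have hvm := V_le W
  set m := ∫ x, W.deg x with hm
  set v := ∫ x, W.deg x ^ 2 with hv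
  have hb := breg_DD (s := 4 * v - 4 * m + 1) (x := m - v) hq0 hq1 hs0 (by linarith) (by ring)
  have hu := Hf_upper hq0 hq1 hm2 hmq
  have hint : ∫ x, (∫ y, W.toFun x y) = m := rfl
  rw [hint] at hgen
  have hent : ∫ z, Hf (W.toFun z.1 z.2) ∂((volume : Measure unitInterval).prod volume) = entW W :=
    rfl
  rw [hent] at hgen
  set A := Aser ((2 * q - 1) ^ 2) with hA
  nlinarith

theorem cost_ent (W : Graphon) {p : ℝ} (hp0 : 0 < p) (hp1 : p < 1) :
    cost p W = entW W - (∫ x, W.deg x) * Real.log p - (1 - ∫ x, W.deg x) * Real.log (1 - p) := by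
  unfold cost entW
  have e : ∀ z : unitInterval × unitInterval, Ip p (W.toFun z.1 z.2) =
      (Hf (W.toFun z.1 z.2) + W.toFun z.1 z.2 * (Real.log (1 - p) - Real.log p)) +
        (-Real.log (1 - p)) := by
    intro z
    rw [Ip_eq hp0 hp1]; ring
  have i1 := int_cont W continuous_Hf
  have i2 : Integrable (fun z : unitInterval × unitInterval =>
      W.toFun z.1 z.2 * (Real.log (1 - p) - Real.log p)) volume :=
    (int_cont W continuous_id).mul_const _
  have i3 : Integrable (fun z : unitInterval × unitInterval => Hf (W.toFun z.1 z.2) +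
      W.toFun z.1 z.2 * (Real.log (1 - p) - Real.log p)) volume := i1.add i2
  simp only [e]
  rw [integral_add i3 (integrable_const _), integral_add i1 i2, integral_mul_const, int_m]
  simp
  ring

/-- If the edge density is at least `q`, the cost is at least `I_p(q)`. -/
theorem suff_dense (W : Graphon) {p q : ℝ} (hp0 : 0 < p) (hpq : p ≤ q) (hq1 : q < 1)
    (hmq : q ≤ ∫ x, W.deg x) :
    Ip p q ≤ cost p W ∧ (cost p W = Ip p q →
      ∀ᵐ z : unitInterval × unitInterval, W.toFun z.1 z.2 = q) := by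
  have hq0 : 0 < q := lt_of_lt_of_le hp0 hpq
  have hp1 : p < 1 := lt_of_le_of_lt hpq hq1
  set m := ∫ x, W.deg x with hm
  have h1 := cost_ent W hp0 hp1
  have h2 := cost_ent W hq0 hq1
  rw [← hm] at h1 h2
  have hIp := Ip_eq hp0 hp1 q
  have hcq : 0 ≤ cost q W := cost_nonneg hq0 hq1 W
  have hrel : cost p W = Ip p q + (m - q) * ((Real.log q - Real.log (1 - q)) -
      (Real.log p - Real.log (1 - p))) + cost q W := by
    rw [h1, h2, hIp]
    unfold Hf
    ring
  have hlam : 0 ≤ (Real.log q - Real.log (1 - q)) - (Real.log p - Real.log (1 - p)) := by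
    have h1 := Real.log_le_log hp0 hpq
    have h2 := Real.log_le_log (by linarith : 0 < 1 - q) (by linarith : 1 - q ≤ 1 - p)
    linarith
  have hpr : 0 ≤ (m - q) * ((Real.log q - Real.log (1 - q)) -
      (Real.log p - Real.log (1 - p))) := mul_nonneg (by linarith) hlam
  refine ⟨by linarith, fun h => ?_⟩
  have h0 : cost q W = 0 := by linarith
  unfold cost at h0
  have hae := (integral_eq_zero_iff_of_nonneg
    (fun z => Ip_nonneg hq0 hq1 (W.nonneg _ _) (W.le_one _ _)) (cost_integrable hq0 hq1 W)).mp h0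
  filter_upwards [hae] with z hz
  exact Ip_eq_zero hq0 hq1 (W.nonneg _ _) (W.le_one _ _) hz

theorem lin_log {x y : ℝ} (c : ℕ) (hx : x ^ c ≠ 0) (hx0 : 0 ≤ x) (hy : 0 < y) :
    (c : ℝ) * Real.log x - c * Real.log y ≤ c * (x / y - 1) := by
  rcases c.eq_zero_or_pos with h | h
  · subst h; simp
  · have hx' : 0 < x := by
      rcases hx0.eq_or_lt with h' | h'
      · exact absurd (by rw [← h', zero_pow h.ne']) hx
      · exact h'
    have h1 := Real.log_le_sub_one_of_pos (div_pos hx' hy)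
    rw [Real.log_div hx'.ne' hy.ne'] at h1
    have h2 : (0 : ℝ) ≤ c := Nat.cast_nonneg c
    nlinarith

/-- Sufficiency. -/
theorem suff_main (W : Graphon) {p q : ℝ} (c0 c1 c2 : ℕ) (hc : 0 < c0 + c1) (hp0 : 0 < p)
    (hpq : p ≤ q) (hq1 : q < 1)
    (hv : (q ^ (c0 + c1 + c2)) ^ 2 ≤ M2 W ^ c0 * (∫ x, W.deg x ^ 2) ^ c1 *
      (∫ x, W.deg x) ^ (2 * c2))
    (hL : (2 * c0 + c1 : ℝ) * (Real.log (1 - p) - Real.log p) ≤
      2 * Aser ((2 * q - 1) ^ 2) * ((2 * c0 + c1) + (2 * c1 + 4 * c2) * q)) :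
    Ip p q ≤ cost p W ∧ (cost p W = Ip p q →
      ∀ᵐ z : unitInterval × unitInterval, W.toFun z.1 z.2 = q) := by
  have hq0 : 0 < q := lt_of_lt_of_le hp0 hpq
  have hp1 : p < 1 := lt_of_le_of_lt hpq hq1
  rcases lt_or_ge (∫ x, W.deg x) q with hmq | hmq
  · have hcost := cost_ent W hp0 hp1
    have hX := boundX W hq0 hq1
    have hV := boundV W hq0 hq1 hmq.le
    have hM : 0 ≤ M2 W := integral_nonneg (fun s => integral_nonneg (fun t => by positivity))
    have hv0 : 0 ≤ ∫ x, W.deg x ^ 2 := integral_nonneg (fun s => sq_nonneg _)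
    have hm0 : 0 ≤ ∫ x, W.deg x := integral_nonneg (fun s => deg_nonneg W s)
    have hMm := M2_le W
    have hvm := V_le W
    set m := ∫ x, W.deg x with hm
    set v := ∫ x, W.deg x ^ 2 with hvdef
    set M := M2 W with hMdef
    set A := Aser ((2 * q - 1) ^ 2) with hA
    -- the linearised constraint
    have hlin : (c2 : ℝ) * q * (q - m) ≤ (c0 / 2 : ℝ) * (M - q ^ 2) + (c1 / 2 : ℝ) * (v - q ^ 2) := by
      have hpos : 0 < M ^ c0 * v ^ c1 * m ^ (2 * c2) := lt_of_lt_of_le (by positivity) hv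
      have n3 : m ^ (2 * c2) ≠ 0 := fun h => by rw [h, mul_zero] at hpos; exact lt_irrefl _ hpos
      have n12 : M ^ c0 * v ^ c1 ≠ 0 := fun h => by rw [h, zero_mul] at hpos; exact lt_irrefl _ hpos
      have n1 : M ^ c0 ≠ 0 := left_ne_zero_of_mul n12
      have n2 : v ^ c1 ≠ 0 := right_ne_zero_of_mul n12
      have hlog := Real.log_le_log (by positivity) hv
      rw [Real.log_mul n12 n3, Real.log_mul n1 n2, Real.log_pow, Real.log_pow, Real.log_pow,
        Real.log_pow, Real.log_pow] at hlog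
      have l1 := lin_log c0 n1 hM (by positivity : 0 < q ^ 2)
      have l2 := lin_log c1 n2 hv0 (by positivity : 0 < q ^ 2)
      have l3 := lin_log (2 * c2) n3 hm0 hq0
      rw [Real.log_pow] at l1 l2
      push_cast at hlog l1 l2 l3
      have h5 : 0 ≤ (c0 : ℝ) * (M / q ^ 2 - 1) + c1 * (v / q ^ 2 - 1) + 2 * c2 * (m / q - 1) := by
        linarith
      have h6 : (c0 : ℝ) * (M / q ^ 2 - 1) + c1 * (v / q ^ 2 - 1) + 2 * c2 * (m / q - 1) =
          2 * ((c0 / 2 : ℝ) * (M - q ^ 2) + (c1 / 2 : ℝ) * (v - q ^ 2) - c2 * q * (q - m)) /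
            q ^ 2 := by
        field_simp
        ring
      rw [h6] at h5
      by_contra hcon
      push Not at hcon
      have := div_neg_of_neg_of_pos (a := 2 * ((c0 / 2 : ℝ) * (M - q ^ 2) +
        (c1 / 2 : ℝ) * (v - q ^ 2) - c2 * q * (q - m))) (by linarith) (by positivity : 0 < q ^ 2)
      linarith
    have hc' : (0 : ℝ) < c0 / 2 + c1 / 2 := by
      have : (0 : ℝ) < c0 + c1 := by exact_mod_cast hc
      linarith
    have hfin := scal (α := (c0 / 2 : ℝ)) (a := (c1 / 2 : ℝ)) (b := (c2 : ℝ))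
      (L := Real.log (1 - p) - Real.log p) hq0 hq1 hmq hMm hvm (by positivity) (by positivity)
      (by positivity) hc' hX hV hlin (A_nonneg _ (sq_nonneg _)) (by linarith)
    have hIp := Ip_eq hp0 hp1 q
    have hstrict : Ip p q < cost p W := by
      rw [hIp, hcost]
      nlinarith
    exact ⟨hstrict.le, fun h => absurd h hstrict.ne'⟩
  · exact suff_dense W hp0 hpq hq1 hmq

end Pool.Agent.H959.UT
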