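import Mathlib
import Pool.Agent.H959.UT.Suf

/-!
MP_bbc525_pr (helper959): the phase diagram for maximum degree two.
-/

set_option autoImplicit false
set_option linter.unusedSectionVars false

namespace Pool.Agent.H959.UT

open MeasureTheory Filter Topology Finset
open Pool.Agent.H767R5.UT

variable {V : Type} [Fintype V]

/-- The number of vertices of degree `d`. -/
noncomputable def vd (H : SimpleGraph V) (d : ℕ) : ℕ := {v | (H.neighborSet v).ncard = d}.ncard

/-- The boundary function for maximum degree two; `ρ = n₁ / n₂`. -/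
noncomputable def curve (ρ q : ℝ) : ℝ :=
  if q = 1 / 2 then Real.exp (2 + ρ) else (q⁻¹ - 1) ^ ((1 + ρ * q) / (1 - 2 * q))

theorem curve_eq (ρ q : ℝ) : curve ρ q = bdry (ρ / 2 - 1) q := by
  unfold curve bdry
  have e1 : 4 + 2 * (ρ / 2 - 1) = 2 + ρ := by ring
  have e2 : 1 + 2 * (1 + (ρ / 2 - 1)) * q = 1 + ρ * q := by ring
  rw [e1, e2]

theorem curve_pos {ρ q : ℝ} (hq0 : 0 < q) (hq1 : q < 1) : 0 < curve ρ q := by
  rw [curve_eq]; exact bdry_pos hq0 hq1

theorem log_curve {ρ q : ℝ} (hq0 : 0 < q) (hq1 : q < 1) :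
    Real.log (curve ρ q) = (2 + 2 * ρ * q) * Aser ((2 * q - 1) ^ 2) := by
  rw [curve_eq, log_bdry hq0 hq1]; ring

variable [DecidableEq V]

theorem vd_eq (H : SimpleGraph V) (d : ℕ) :
    vd H d = (Finset.univ.filter (fun v => (inc H v).card = d)).card := by
  unfold vd
  rw [← Set.ncard_coe_finset]
  congr 1
  ext v
  simp [inc_card]

theorem sum_types {M : Type} [AddCommMonoid M] (H : SimpleGraph V)
    (hdeg : ∀ v, (inc H v).card ≤ 2) (f : ℕ → M) (f0 : f 0 = 0) :
    ∑ v : V, f (inc H v).card = (vd H 1) • f 1 + (vd H 2) • f 2 := by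
  have h : ∀ v ∈ (Finset.univ : Finset V), f (inc H v).card =
      (if (inc H v).card = 1 then f 1 else 0) + (if (inc H v).card = 2 then f 2 else 0) := by
    intro v _
    have := hdeg v
    interval_cases h : (inc H v).card <;> simp [f0]
  rw [Finset.sum_congr rfl h, Finset.sum_add_distrib, Finset.sum_ite, Finset.sum_ite,
    Finset.sum_const, Finset.sum_const_zero, Finset.sum_const, Finset.sum_const_zero, add_zero,
    add_zero, vd_eq, vd_eq]

/-- The leaves. -/
noncomputable def leaves (H : SimpleGraph V) : Finset V :=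
  Finset.univ.filter (fun v => (inc H v).card = 1)

theorem main_two (H : SimpleGraph V) (hdeg : ∀ v, (H.neighborSet v).ncard ≤ 2)
    (hE : 0 < H.edgeSet.ncard) {p q : ℝ} (hp0 : 0 < p) (hpq : p ≤ q) (hq1 : q < 1) :
    UT H p q ≤ Ip p q ∧
    (UT H p q = Ip p q ↔ vd H 2 = 0 ∨ 1 ≤ (1 + curve (vd H 1 / vd H 2) q) * p) ∧
    (UT H p q = Ip p q → ∀ W : Graphon, Feasible H q W → cost p W = UT H p q →
      ∀ᵐ z : unitInterval × unitInterval, W.toFun z.1 z.2 = q) := by
  have hq0 : 0 < q := lt_of_lt_of_le hp0 hpq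
  have hp1 : p < 1 := lt_of_le_of_lt hpq hq1
  have hdeg' : ∀ v, (inc H v).card ≤ 2 := fun v => by rw [inc_card]; exact hdeg v
  have hE' : 0 < (edges H).card := by rw [edges_card]; exact hE
  set c0 := ec H (leaves H) 0 with hc0
  set c1 := ec H (leaves H) 1 with hc1
  set c2 := ec H (leaves H) 2 with hc2
  have hcE : (edges H).card = c0 + c1 + c2 := card_edges H (leaves H)
  have hn1 : vd H 1 = c1 + 2 * c2 := by
    rw [vd_eq, ← sum_inc H (leaves H)]
    rw [Finset.card_eq_sum_ones]
    apply Finset.sum_congr rfl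
    intro v hv
    exact ((Finset.mem_filter.mp hv).2).symm
  have hn2 : 2 * vd H 2 = 2 * c0 + c1 := by
    have h1 := sum_inc_univ H
    have h2 := sum_types H hdeg' (fun n => n) rfl
    simp only [smul_eq_mul, mul_one] at h2
    rw [h1] at h2
    omega
  have hbound : ∀ W : Graphon, Feasible H q W → (q ^ (c0 + c1 + c2)) ^ 2 ≤
      M2 W ^ c0 * (∫ x, W.deg x ^ 2) ^ c1 * (∫ x, W.deg x) ^ (2 * c2) := by
    intro W hW
    unfold Feasible at hW
    rw [← edges_card, hcE] at hW
    refine (pow_le_pow_left₀ (by positivity) hW 2).trans ?_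
    exact bound_two H W (leaves H) (fun i hi => (Finset.mem_filter.mp hi).2.le)
      (fun i _ => hdeg' i)
  have hle := UT_le H hp0 hpq hq1
  -- sufficiency, assuming the criterion
  have hsuff : (vd H 2 = 0 ∨ 1 ≤ (1 + curve (vd H 1 / vd H 2) q) * p) → ∀ W : Graphon,
      Feasible H q W → Ip p q ≤ cost p W ∧ (cost p W = Ip p q →
          ∀ᵐ z : unitInterval × unitInterval, W.toFun z.1 z.2 = q) := by
    intro hcr W hW
    have hb := hbound W hW
    by_cases h0 : vd H 2 = 0
    · have hc0' : c0 = 0 := by omega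
      have hc1' : c1 = 0 := by omega
      have hc2' : 0 < c2 := by omega
      rw [hc0', hc1'] at hb
      simp only [pow_zero, one_mul, zero_add] at hb
      have hm0 : 0 ≤ ∫ x, W.deg x := integral_nonneg (fun s => deg_nonneg W s)
      have hmq : q ≤ ∫ x, W.deg x := by
        by_contra hcon
        push Not at hcon
        have : (∫ x, W.deg x) ^ (2 * c2) < q ^ (2 * c2) :=
          pow_lt_pow_left₀ hcon hm0 (by omega)
        rw [← pow_mul, mul_comm] at hb
        linarith
      exact suff_dense W hp0 hpq hq1 hmq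
    · rcases hcr with h | hcr
      · exact absurd h h0
      · rw [cond_iff hp0 hp1 (curve_pos hq0 hq1), log_curve hq0 hq1] at hcr
        have h2pos : (0 : ℝ) < vd H 2 := by exact_mod_cast Nat.pos_of_ne_zero h0
        have r1 : (vd H 1 : ℝ) = c1 + 2 * c2 := by exact_mod_cast hn1
        have r2 : 2 * (vd H 2 : ℝ) = 2 * c0 + c1 := by exact_mod_cast hn2
        refine suff_main W c0 c1 c2 (by omega) hp0 hpq hq1 hb ?_
        have h3 : Real.log (1 - p) - Real.log p ≤
            (2 + 2 * (vd H 1 / vd H 2 : ℝ) * q) * Aser ((2 * q - 1) ^ 2) := by linarith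
        have h4 := mul_le_mul_of_nonneg_left h3 (by linarith : 0 ≤ 2 * (vd H 2 : ℝ))
        have h5 : 2 * (vd H 2 : ℝ) * ((2 + 2 * (vd H 1 / vd H 2 : ℝ) * q) *
            Aser ((2 * q - 1) ^ 2)) =
            2 * Aser ((2 * q - 1) ^ 2) * (2 * (vd H 2 : ℝ) + 2 * (vd H 1 : ℝ) * q) := by
          field_simp
        rw [h5, r1, r2] at h4
        linarith
  have hiff : UT H p q = Ip p q ↔ vd H 2 = 0 ∨ 1 ≤ (1 + curve (vd H 1 / vd H 2) q) * p := by
    constructor
    · intro hRS
      by_contra hcon
      push Not at hcon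
      obtain ⟨h0, hcr⟩ := hcon
      have hcr' := mt (cond_iff hp0 hp1 (curve_pos (ρ := (vd H 1 / vd H 2 : ℝ)) hq0 hq1)).mpr
        (not_le.mpr hcr)
      rw [log_curve hq0 hq1] at hcr'
      push Not at hcr'
      have h2pos : (0 : ℝ) < vd H 2 := by exact_mod_cast Nat.pos_of_ne_zero h0
      have h1nn : (0 : ℝ) ≤ vd H 1 := Nat.cast_nonneg _
      have hlog := logit_eq hq0 hq1
      set A := Aser ((2 * q - 1) ^ 2) with hA
      have hA0 : 0 ≤ A := A_nonneg _ (sq_nonneg _)
      set lam := (Real.log q - Real.log (1 - q)) - (Real.log p - Real.log (1 - p)) with hlamdef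
      have hEr : 2 * ((edges H).card : ℝ) = vd H 1 + 2 * vd H 2 := by
        have : 2 * (edges H).card = vd H 1 + 2 * vd H 2 := by omega
        exact_mod_cast this
      have hK : (0 : ℝ) < (edges H).card / vd H 2 := by
        have : (0 : ℝ) < (edges H).card := by exact_mod_cast hE'
        positivity
      have hlam : 4 * ((edges H).card / vd H 2 : ℝ) * q * A < lam := by
        have e : 4 * ((edges H).card / vd H 2 : ℝ) * q * A =
            (4 + 2 * (vd H 1 / vd H 2 : ℝ)) * q * A := by
          have : ((edges H).card : ℝ) = (vd H 1 + 2 * vd H 2) / 2 := by linarith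
          rw [this]
          field_simp
          ring
        rw [e, hlamdef, hlog]
        linarith
      obtain ⟨u, hu0, hu1, hu⟩ := exists_u hq0 hq1 hK hlam
      have hnec := necessary H hE' hp0 hpq hq1 hRS hu0 hu1
      rw [← hlamdef] at hnec
      have hsum : ∑ v : V, ((u / q) ^ (inc H v).card - 1) =
          vd H 1 * (u / q - 1) + vd H 2 * ((u / q) ^ 2 - 1) := by
        have := sum_types H hdeg' (fun n => (u / q) ^ n - 1) (by simp)
        simp only [nsmul_eq_mul, pow_one] at this
        exact this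
      rw [hsum] at hnec
      have hexp := Ip_expand hp0 hp1 hq0 hq1 u
      rw [← hlamdef] at hexp
      rw [hexp] at hnec
      have e1 : q * (vd H 1 * (u / q - 1) + vd H 2 * ((u / q) ^ 2 - 1)) =
          2 * (edges H).card * (u - q) + vd H 2 * (u - q) ^ 2 / q := by
        rw [hEr]
        field_simp
        ring
      rw [e1] at hnec
      have e2 : Ip q u * (2 * ((edges H).card / vd H 2 : ℝ) * q) * (vd H 2 / q) =
          2 * (edges H).card * Ip q u := by
        field_simp
      have h7 := mul_lt_mul_of_pos_right hu (by positivity : (0 : ℝ) < vd H 2 / q)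
      rw [e2] at h7
      have e3 : lam * (u - q) ^ 2 * (vd H 2 / q) = lam * (vd H 2 * (u - q) ^ 2 / q) := by ring
      rw [e3] at h7
      nlinarith
    · intro hcr
      apply IsLeast.csInf_eq
      refine ⟨⟨constGraphon q hq0.le hq1.le, const_feasible H hq0.le hq1.le,
        (cost_const hq0.le hq1.le).symm⟩, ?_⟩
      rintro c ⟨W, hW, rfl⟩
      exact (hsuff hcr W hW).1
  exact ⟨hle, hiff, fun hRS W hW hc => (hsuff (hiff.mp hRS) W hW).2 (hc.trans hRS)⟩

end Pool.Agent.H959.UT
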